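import Mathlib

/-!
# Additive maps applied to the coefficients of a polynomial
-/

set_option autoImplicit false

open MvPolynomial

namespace Q207.AF

section
variable {A B A₀ σ : Type} [CommRing A] [CommRing B] [CommRing A₀]

/-- the additive map applied to the coefficients -/
noncomputable def app (θ : A →+ B) (P : MvPolynomial σ A) : MvPolynomial σ B := ∑ s ∈ P.support, monomial s (θ (P.coeff s))

lemma coeff_app (θ : A →+ B) (P : MvPolynomial σ A) (s : σ →₀ ℕ) : (app θ P).coeff s = θ (P.coeff s) := by
  classical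
  unfold app
  rw [coeff_sum]
  simp_rw [coeff_monomial]
  rw [Finset.sum_ite_eq']
  split_ifs with h
  · rfl
  · rw [notMem_support_iff.1 h, map_zero]

lemma app_add (θ : A →+ B) (P Q : MvPolynomial σ A) : app θ (P + Q) = app θ P + app θ Q := by
  ext s
  rw [coeff_add, coeff_app, coeff_app, coeff_app, coeff_add, map_add]

lemma app_zero (θ : A →+ B) : app θ (0 : MvPolynomial σ A) = 0 := by
  ext s
  rw [coeff_app, coeff_zero, coeff_zero, map_zero]

lemma app_sum (θ : A →+ B) {ι : Type} (S : Finset ι) (f : ι → MvPolynomial σ A) : app θ (∑ i ∈ S, f i) = ∑ i ∈ S, app θ (f i) := by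
  ext s
  rw [coeff_app, coeff_sum, coeff_sum, map_sum]
  exact Finset.sum_congr rfl fun i _ => (coeff_app θ _ _).symm

lemma app_monomial (θ : A →+ B) (s : σ →₀ ℕ) (a : A) : app θ (monomial s a) = monomial s (θ a) := by
  classical
  ext t
  rw [coeff_app, coeff_monomial, coeff_monomial]
  split_ifs
  · rfl
  · rw [map_zero]

lemma app_C (θ : A →+ B) (a : A) : app θ (C a : MvPolynomial σ A) = C (θ a) := app_monomial θ 0 a

lemma app_mul (θ : A →+ B) (ι : A₀ →+* A) (κ : A₀ →+* B) (h : ∀ a u, θ (a * ι u) = θ a * κ u) (g : MvPolynomial σ A)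
    (u : MvPolynomial σ A₀) : app θ (g * map ι u) = app θ g * map κ u := by
  classical
  ext s
  rw [coeff_app, coeff_mul, coeff_mul, map_sum]
  refine Finset.sum_congr rfl fun x _ => ?_
  rw [coeff_map, coeff_map, coeff_app, h]

lemma eval_app (θ : A →+ B) (ι : A₀ →+* A) (κ : A₀ →+* B) (h : ∀ a u, θ (a * ι u) = θ a * κ u) (y : σ → A₀)
    (P : MvPolynomial σ A) : eval (fun i => κ (y i)) (app θ P) = θ (eval (fun i => ι (y i)) P) := by
  classical
  have key : ∀ (s : σ →₀ ℕ) (a : A), eval (fun i => κ (y i)) (monomial s (θ a)) = θ (eval (fun i => ι (y i)) (monomial s a)) := by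
    intro s a
    have h1 : ∀ {R : Type} [CommRing R] (f : A₀ →+* R), (s.prod fun i e => f (y i) ^ e) = f (s.prod fun i e => y i ^ e) := by
      intro R _ f
      rw [map_finsuppProd]
      exact Finsupp.prod_congr fun i _ => (map_pow f _ _).symm
    rw [eval_monomial, eval_monomial, h1 κ, h1 ι, h]
  conv_rhs => rw [P.as_sum, map_sum, map_sum]
  unfold app
  rw [map_sum]
  exact Finset.sum_congr rfl fun s _ => key s _

/-- the map preserves the ideals which are generated by polynomials with small coefficients -/
lemma app_mem (θ : A →+ A₀) (ι : A₀ →+* A) (h : ∀ a u, θ (a * ι u) = θ a * u) (S : Set (MvPolynomial σ A₀))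
    {G : MvPolynomial σ A} (hG : G ∈ Ideal.span (map ι '' S)) : app θ G ∈ Ideal.span S := by
  have key : ∀ g : MvPolynomial σ A, app θ (g * G) ∈ Ideal.span S := by
    induction hG using Submodule.span_induction with
    | mem G hG =>
      intro g
      obtain ⟨u, hu, rfl⟩ := hG
      have h1 := app_mul θ ι (RingHom.id A₀) (fun a u => h a u) g u
      rw [map_id] at h1
      rw [h1]
      exact Ideal.mul_mem_left _ _ (Ideal.subset_span hu)
    | zero =>
      intro g
      rw [mul_zero, app_zero]
      exact Submodule.zero_mem _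
    | add G G' _ _ h1 h2 =>
      intro g
      rw [mul_add, app_add]
      exact Submodule.add_mem _ (h1 g) (h2 g)
    | smul a G _ ih =>
      intro g
      rw [smul_eq_mul, ← mul_assoc]
      exact ih _
  have h1 := key 1
  rwa [one_mul] at h1

end

end Q207.AF
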