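import Pool.Agent.Q207.AF.Mk
import Pool.Agent.Y916.Af.All
import Pool.Agent.Y916.Sl.Many
import Pool.Agent.Y113.W.Alg

/-!
# Moving relations by symmetries of the functional relations at almost all algebraic tuples
-/

set_option autoImplicit false
set_option linter.unusedSectionVars false

open PowerSeries Module Pool.Agent.Y340.AF Pool.Agent.Y120.GH Pool.Agent.Y118.UL Pool.Agent.Y916 Filter

namespace Q207.AF

section
variable {k r : ℕ} {ν : Fin k → Type} [∀ i, Fintype (ν i)] [∀ i, DecidableEq (ν i)]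

/-- all relations of degree at most `δ` with coefficients in `V` are moved -/
def GdV (h : Fin r → ℚ⟦X⟧) (P : ∀ i, ν i → MvPolynomial (Option (Fin r)) ℂ) (δ : ℕ) (V : Submodule ℚ ℂ) (α : Fin k → ℂ) : Prop :=
  ∀ ℓ : Fin k → ℂ, (∀ i, Complex.exp (ℓ i) = α i) → ∀ F : MvPolynomial (Σ i, ν i) ℂ, F.totalDegree ≤ δ → (∀ s, F.coeff s ∈ V) →
    MvPolynomial.eval (fun v => pw h (P v.1) (α v.1) (ℓ v.1) v.2) F = 0 →
    ∀ P' : ∀ i, ν i → MvPolynomial (Option (Fin r)) ℂ, (∀ i, SatA h (P i) (P' i)) →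
      MvPolynomial.eval (fun v => pw h (P' v.1) (α v.1) (ℓ v.1) v.2) F = 0

/-- the period functions in all variables -/
noncomputable def Ph (P : ∀ i, ν i → MvPolynomial (Option (Fin r)) ℂ) (v : Σ i, ν i) : MvPolynomial (Fin k × Option (Fin r)) ℂ :=
  MvPolynomial.rename (fun o => (v.1, o)) (P v.1 v.2)

lemma Ph_deg {P : ∀ i, ν i → MvPolynomial (Option (Fin r)) ℂ} {e : ℕ} (hP : ∀ i a, (P i a).totalDegree ≤ e) (v : Σ i, ν i) :
    (Ph P v).totalDegree ≤ e := (MvPolynomial.totalDegree_rename_le _ _).trans (hP _ _)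

lemma Ph_eval (P : ∀ i, ν i → MvPolynomial (Option (Fin r)) ℂ) (v : Σ i, ν i) (y : Fin k × Option (Fin r) → ℂ) :
    MvPolynomial.eval y (Ph P v) = MvPolynomial.eval (fun o => y (v.1, o)) (P v.1 v.2) := by
  unfold Ph
  rw [MvPolynomial.eval_rename]
  rfl

/-- the exponent -/
noncomputable def ek {e : ℕ} (u : Fin k × Option (Fin r) → Fin (e + 1)) : Fin k × Option (Fin r) →₀ ℕ :=
  Finsupp.equivFunOnFinite.symm fun v => (u v : ℕ)

/-- the space of the coefficients -/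
noncomputable def Vk (P : ∀ i, ν i → MvPolynomial (Option (Fin r)) ℂ) (δ e : ℕ) : Submodule ℚ ℂ :=
  Submodule.span ℚ (Set.range fun p : Jz (Σ i, ν i) δ × (Fin k × Option (Fin r) → Fin (δ * e + 1)) => (Mz (Ph P) p.1).coeff (ek p.2))

instance Vk_fin (P : ∀ i, ν i → MvPolynomial (Option (Fin r)) ℂ) (δ e : ℕ) : Module.Finite ℚ (Vk P δ e) :=
  FiniteDimensional.span_of_finite ℚ (Set.finite_range _)

lemma Vk_rank (P : ∀ i, ν i → MvPolynomial (Option (Fin r)) ℂ) (δ e : ℕ) :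
    finrank ℚ (Vk P δ e) ≤ Fintype.card (Jz (Σ i, ν i) δ × (Fin k × Option (Fin r) → Fin (δ * e + 1))) := by
  classical
  exact finrank_range_le_card _

lemma Vk_mem {P : ∀ i, ν i → MvPolynomial (Option (Fin r)) ℂ} {δ e : ℕ} (hP : ∀ i a, (P i a).totalDegree ≤ e) (j : Jz (Σ i, ν i) δ)
    (s : Fin k × Option (Fin r) →₀ ℕ) : (Mz (Ph P) j).coeff s ∈ Vk P δ e := by
  by_cases hs : (Mz (Ph P) j).coeff s = 0
  · rw [hs]
    exact Submodule.zero_mem _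
  · have h1 : (s.sum fun _ e => e) ≤ δ * e :=
      (MvPolynomial.le_totalDegree (MvPolynomial.mem_support_iff.2 hs)).trans (Mz_deg (Ph_deg hP) j)
    rw [Finsupp.sum_fintype _ _ (fun _ => rfl)] at h1
    refine Submodule.subset_span ⟨(j, fun v => ⟨s v, Nat.lt_succ_of_le ((Finset.single_le_sum (f := fun v => s v)
      (fun _ _ => Nat.zero_le _) (Finset.mem_univ v)).trans h1)⟩), ?_⟩
    show (Mz (Ph P) j).coeff _ = _
    congr 1
    ext v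
    rfl

/-- from the engine to the moving of relations -/
theorem gd_of {T₀ : Polynomial ℤ} {A : Fin r → Fin r → Polynomial ℤ} {h : Fin r → ℚ⟦X⟧} (hG : Af.GFam T₀ A h) (hc : Conn h)
    (δ e : ℕ) : ∃ K : ℕ, 1 ≤ K ∧ ∀ P : ∀ i, ν i → MvPolynomial (Option (Fin r)) ℂ, (∀ i a, (P i a).totalDegree ≤ e) →
    ∃ B : Set ℂ, B.Finite ∧ ∀ V : Submodule ℚ ℂ, ∀ α : Fin k → ℂ, (∀ i, α i ∉ B) → (∀ i, (K : ℝ) < ‖α i‖) →
      ¬ Af.ExcC h (δ * e) 1 (V * Vk P δ e) α → GdV h P δ V α := by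
  classical
  obtain ⟨C₀, hC₀⟩ := hG.hsize
  obtain ⟨K₁, hK₁⟩ := exists_nat_ge |C₀|
  obtain ⟨K₂, hK₂1, hK₂⟩ := Af.val_memC hG.hsize
  refine ⟨max (K₁ + 1) K₂, le_max_of_le_right hK₂1, fun P hP => ?_⟩
  have hK : (1 : ℝ) ≤ ((max (K₁ + 1) K₂ : ℕ) : ℝ) := by exact_mod_cast le_max_of_le_right hK₂1
  have hKh : ∀ i m, |((coeff m (h i) : ℚ) : ℝ)| ≤ ((max (K₁ + 1) K₂ : ℕ) : ℝ) ^ (m + 1) := by
    intro i m
    have h1 : |C₀| ≤ ((max (K₁ + 1) K₂ : ℕ) : ℝ) := hK₁.trans (by exact_mod_cast (Nat.le_succ K₁).trans (le_max_left _ _))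
    refine (hC₀ i m).trans ((le_abs_self _).trans ?_)
    rw [abs_pow]
    exact pow_le_pow_left₀ (abs_nonneg _) h1 _
  have hne : ∀ α : ℂ, ((max (K₁ + 1) K₂ : ℕ) : ℝ) < ‖α‖ → (VV h (1 / α)).Nonempty := by
    intro α hα
    exact ⟨_, hK₂ α (lt_of_le_of_lt (by exact_mod_cast le_max_right _ _) hα)⟩
  obtain ⟨B, hBf, hB⟩ := mv_all hc hK hKh hne P δ
  refine ⟨B, hBf, fun V α hαB hαK hexc ℓ hℓ F hF hFV h0 P' hP' => ?_⟩
  refine hB α hαB hαK F hF (fun l y hy => ?_) P' hP' ℓ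
  let F' : MvPolynomial (Fin k × Option (Fin r)) ℂ := ∑ j : Jz (Σ i, ν i) δ, MvPolynomial.C (F.coeff (ez j)) * Mz (Ph P) j
  have hF'ev : ∀ y : Fin k × Option (Fin r) → ℂ, MvPolynomial.aeval y F' =
      MvPolynomial.eval (fun v => MvPolynomial.eval (fun o => y (v.1, o)) (P v.1 v.2)) F := by
    intro y
    have h2 : MvPolynomial.eval (fun v => MvPolynomial.eval (fun o => y (v.1, o)) (P v.1 v.2)) F =
        ∑ j : Jz (Σ i, ν i) δ, F.coeff (ez j) * ∏ v, (MvPolynomial.eval (fun o => y (v.1, o)) (P v.1 v.2)) ^ (j.1 v : ℕ) :=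
      eval_ez hF (RingHom.id ℂ) _
    rw [h2]
    simp only [F', map_sum, map_mul]
    refine Finset.sum_congr rfl fun j _ => ?_
    rw [MvPolynomial.aeval_C, MvPolynomial.aeval_eq_eval, Mz_eval]
    refine congrArg₂ _ rfl (Finset.prod_congr rfl fun v _ => ?_)
    rw [Ph_eval]
  have hF'deg : F'.totalDegree ≤ δ * e := by
    refine (MvPolynomial.totalDegree_finsetSum _ _).trans (Finset.sup_le fun j _ => ?_)
    refine (MvPolynomial.totalDegree_mul _ _).trans ?_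
    rw [MvPolynomial.totalDegree_C, zero_add]
    exact Mz_deg (Ph_deg hP) j
  have hF'co : ∀ t, F'.coeff t ∈ Submodule.span (⊥ : IntermediateField ℚ ℂ) ((V * Vk P δ e : Submodule ℚ ℂ) : Set ℂ) := by
    intro t
    simp only [F', MvPolynomial.coeff_sum, MvPolynomial.coeff_C_mul]
    exact Submodule.sum_mem _ fun j _ => Submodule.subset_span (Submodule.mul_mem_mul (hFV _) (Vk_mem hP j t))
  have h3 : MvPolynomial.aeval (Af.ptc h α ℓ) F' = 0 := by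
    rw [hF'ev, ← h0]
    congr 2
  have h4 : ∀ y ∈ Af.Fib h fun j => 1 / α j, MvPolynomial.aeval y F' = 0 := by
    intro y hy
    by_contra h5
    exact hexc ⟨ℓ, hℓ, ⊥, inferInstance, (IntermediateField.finrank_bot).le, F', hF'deg, hF'co, h3, y, hy, h5⟩
  have h5 := h4 (fun a => a.2.elim (l a.1) (y a.1)) hy
  rw [hF'ev] at h5
  exact h5

/-- almost all tuples of algebraic integers -/
theorem cnt_alg {T₀ : Polynomial ℤ} {A : Fin r → Fin r → Polynomial ℤ} {h : Fin r → ℚ⟦X⟧} (hG : Af.GFam T₀ A h) (hc : Conn h)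
    (m : ℕ) (hm : 1 ≤ m) (δ e D : ℕ) :
    ∃ c : ℝ, 0 < c ∧ ∃ C : ℝ, 0 ≤ C ∧ ∀ P : ∀ i, ν i → MvPolynomial (Option (Fin r)) ℂ, (∀ i a, (P i a).totalDegree ≤ e) →
      ∃ B : Set ℂ, B.Finite ∧ ∀ V : Submodule ℚ ℂ, Module.Finite ℚ V → finrank ℚ V ≤ D → ∀ T : ℕ, 1 ≤ T →
        ({α : Fin k → ℂ | (∀ i, Sl.SInt m T (α i) ∧ α i ∉ B) ∧ ¬ GdV h P δ V α}.ncard : ℝ) ≤
          C * (T : ℝ) ^ (-c) * ({α : ℂ | Sl.SInt m T α}.ncard : ℝ) ^ k := by
  classical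
  obtain ⟨c₁, hc₁, h₁⟩ := Sl.many m hm
  obtain ⟨K, hK1, hK⟩ := gd_of (ν := ν) hG hc δ e
  obtain ⟨c, hc0, C, hC0, h₃⟩ := Af.tupC Af.nr Af.t_br2 Af.conn hG hc k m (δ * e) 1
    (D * Fintype.card (Jz (Σ i, ν i) δ × (Fin k × Option (Fin r) → Fin (δ * e + 1))))
  obtain ⟨C₂, hC₂, h₂⟩ := Af.small_tuples m k K hK1
  refine ⟨min c 1, lt_min hc0 one_pos, (C + C₂) / c₁ ^ k, by positivity, fun P hP => ?_⟩
  obtain ⟨B, hBf, hB⟩ := hK P hP
  refine ⟨B, hBf, fun V hV hVD T hT => ?_⟩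
  have hT1 : (1 : ℝ) ≤ T := by exact_mod_cast hT
  obtain ⟨hf1, hf2⟩ := Pool.Agent.Y113.finrank_mul_le V (Vk P δ e)
  obtain ⟨hf, hle⟩ := h₃ (V * Vk P δ e) hf1 (hf2.trans (Nat.mul_le_mul hVD (Vk_rank P δ e))) T hT
  set X := {α : Fin k → ℂ | (∀ i, Sl.AInt m T (α i)) ∧ Af.ExcC h (δ * e) 1 (V * Vk P δ e) α} with hX
  set Y := (Fintype.piFinset fun _ : Fin k => Sl.NF m T).filter fun α => ∃ i, ‖α i‖ ≤ (K : ℕ) with hY
  have hsub : {α : Fin k → ℂ | (∀ i, Sl.SInt m T (α i) ∧ α i ∉ B) ∧ ¬ GdV h P δ V α} ⊆ X ∪ (Y : Set (Fin k → ℂ)) := by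
    rintro α ⟨h3, h4⟩
    by_cases h5 : ∃ i, ‖α i‖ ≤ (K : ℕ)
    · right
      rw [Finset.mem_coe, Finset.mem_filter, Fintype.mem_piFinset]
      exact ⟨fun i => Sl.mem_NF.2 (Sl.SInt.aint (h3 i).1), h5⟩
    · left
      refine ⟨fun i => Sl.SInt.aint (h3 i).1, ?_⟩
      by_contra h6
      exact h4 (hB V α (fun i => (h3 i).2) (fun i => not_le.1 fun h7 => h5 ⟨i, h7⟩) h6)
  have hcard := (Set.ncard_le_ncard hsub (hf.union (Finset.finite_toSet _))).trans (Set.ncard_union_le _ _)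
  rw [Set.ncard_coe_finset] at hcard
  have hmono1 : (T : ℝ) ^ (((k * Sl.Mm m : ℕ) : ℝ) - c) ≤ (T : ℝ) ^ (((k * Sl.Mm m : ℕ) : ℝ) - min c 1) :=
    Real.rpow_le_rpow_of_exponent_le hT1 (by linarith [min_le_left c 1])
  have hmono2 : (T : ℝ) ^ (((k * Sl.Mm m : ℕ) : ℝ) - 1) ≤ (T : ℝ) ^ (((k * Sl.Mm m : ℕ) : ℝ) - min c 1) :=
    Real.rpow_le_rpow_of_exponent_le hT1 (by linarith [min_le_right c 1])
  have hle2 : ({α : Fin k → ℂ | (∀ i, Sl.SInt m T (α i) ∧ α i ∉ B) ∧ ¬ GdV h P δ V α}.ncard : ℝ) ≤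
      (C + C₂) * (T : ℝ) ^ (((k * Sl.Mm m : ℕ) : ℝ) - min c 1) := by
    have h5 : ({α : Fin k → ℂ | (∀ i, Sl.SInt m T (α i) ∧ α i ∉ B) ∧ ¬ GdV h P δ V α}.ncard : ℝ) ≤ (X.ncard : ℝ) + (Y.card : ℝ) := by
      exact_mod_cast hcard
    rw [add_mul]
    exact h5.trans (add_le_add (hle.trans (mul_le_mul_of_nonneg_left hmono1 hC0))
      ((h₂ T hT).trans (mul_le_mul_of_nonneg_left hmono2 hC₂)))
  exact hle2.trans (Sl.prop_bound hc₁ (by positivity) hT (h₁ T hT))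

end

end Q207.AF
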