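import Pool.Agent.Q207.AF.App
import Pool.Agent.Y340.AF.ConnCore
import Pool.Agent.Y120.H.Cx

/-!
# Relations over the algebraic closure which hold on the fibres come from functional relations
-/

set_option autoImplicit false
set_option linter.unusedSectionVars false

open PowerSeries Filter Pool.Agent.Y118.UL Pool.Agent.Y340.AF Pool.Agent.Y120.GH

namespace Q207.AF

section
variable {r : ℕ} {k₀ : Type} [Field k₀] [CharZero k₀]

/-- the logarithm is replaced by a number -/
noncomputable def sub (l : ℕ) : MvPolynomial (Option (Fin r)) ℂ →+* MvPolynomial (Fin r) ℂ :=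
  MvPolynomial.eval₂Hom MvPolynomial.C fun o => o.elim (MvPolynomial.C (l : ℂ)) MvPolynomial.X

lemma eval_sub (l : ℕ) (y : Fin r → ℂ) (Q : MvPolynomial (Option (Fin r)) ℂ) :
    MvPolynomial.eval y (sub l Q) = MvPolynomial.eval (fun o => o.elim (l : ℂ) y) Q := by
  have h1 : (MvPolynomial.eval y).comp (sub l) = MvPolynomial.eval (fun o => o.elim (l : ℂ) y) := by
    refine MvPolynomial.ringHom_ext (fun c => ?_) fun o => ?_
    · rw [RingHom.comp_apply]
      unfold sub
      rw [MvPolynomial.eval₂Hom_C, MvPolynomial.eval_C, MvPolynomial.eval_C]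
    · rw [RingHom.comp_apply]
      unfold sub
      rw [MvPolynomial.eval₂Hom_X', MvPolynomial.eval_X]
      rcases o with _ | i
      · exact MvPolynomial.eval_C _
      · exact MvPolynomial.eval_X _
  exact RingHom.congr_fun h1 Q

/-- evaluation of rational polynomials -/
noncomputable def evQ {F : Type} [Field F] [CharZero F] (s : F) : Polynomial ℚ →+* F := Polynomial.eval₂RingHom (Rat.castHom F) s

lemma evQ_aeval (x : ℂ) : (Polynomial.aeval x : Polynomial ℚ →ₐ[ℚ] ℂ).toRingHom = evQ x := by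
  refine Polynomial.ringHom_ext (fun a => ?_) ?_
  · show Polynomial.aeval x (Polynomial.C a) = Polynomial.eval₂ _ x (Polynomial.C a)
    rw [Polynomial.aeval_C, Polynomial.eval₂_C]
    rfl
  · show Polynomial.aeval x Polynomial.X = Polynomial.eval₂ _ x Polynomial.X
    rw [Polynomial.aeval_X, Polynomial.eval₂_X]

/-- a functional relation, in the formal sense -/
def Rel [Algebra k₀ ℂ] {J : Type} [Fintype J] (h : Fin r → ℚ⟦X⟧) (M : J → MvPolynomial (Option (Fin r)) ℂ) (R : J → Polynomial k₀) :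
    Prop :=
  ∀ l : ℕ, ∑ j, (((R j).map (algebraMap k₀ ℂ) : Polynomial ℂ) : PowerSeries ℂ) *
    MvPolynomial.eval₂ PowerSeries.C (fun i => cx (h i)) (sub l (M j)) = 0

/-- constants in the ultrapower -/
noncomputable def c0 : k₀ →+* U k₀ := (mk k₀).comp (Pi.constRingHom ℕ k₀)

/-- polynomials in the ultrapower -/
noncomputable def phK (s : ℕ → k₀) : Polynomial k₀ →+* U k₀ := (mk k₀).comp (RingHom.pi fun n => Polynomial.evalRingHom (s n))

/-- rational polynomials in the ultrapower -/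
noncomputable def phQ (s : ℕ → k₀) : Polynomial ℚ →+* U k₀ := (phK s).comp (Polynomial.mapRingHom (Rat.castHom k₀))

lemma phK_C (s : ℕ → k₀) : (phK s).comp Polynomial.C = c0 := by
  refine RingHom.ext fun a => ?_
  show mk k₀ (fun n => Polynomial.eval (s n) (Polynomial.C a)) = mk k₀ (fun _ => a)
  congr 1
  funext n
  rw [Polynomial.eval_C]

lemma ev_ne {s : ℕ → k₀} (hs : Function.Injective s) {q : Polynomial k₀} (hq : q ≠ 0) :
    ∀ᶠ n in (hyperfilter ℕ : Filter ℕ), q.eval (s n) ≠ 0 := by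
  have h1 : {n : ℕ | q.eval (s n) = 0}.Finite := by
    classical
    have h2 : {x : k₀ | q.eval x = 0}.Finite := by
      refine (q.roots.toFinset.finite_toSet).subset fun x hx => ?_
      rw [Finset.mem_coe, Multiset.mem_toFinset, Polynomial.mem_roots hq]
      exact hx
    exact h2.preimage hs.injOn
  exact (hyperfilter_le_cofinite (α := ℕ)) h1.compl_mem_cofinite

lemma phK_inj {s : ℕ → k₀} (hs : Function.Injective s) : Function.Injective (phK s) := by
  rw [injective_iff_map_eq_zero]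
  intro q hq
  by_contra hq0
  have h1 : mk k₀ (fun n => q.eval (s n)) ≠ 0 := mk_ne_zero.2 (ev_ne hs hq0)
  exact h1 hq

lemma phQ_inj {s : ℕ → k₀} (hs : Function.Injective s) : Function.Injective (phQ s) :=
  (phK_inj hs).comp (Polynomial.map_injective _ (Rat.castHom k₀).injective)

lemma eval_c0 (ζ : Fin r → ℕ → k₀) (Q : MvPolynomial (Fin r) k₀) :
    MvPolynomial.eval (fun i => mk k₀ (ζ i)) (MvPolynomial.map c0 Q) = mk k₀ fun n => MvPolynomial.eval (fun i => ζ i n) Q := by
  have h1 : (MvPolynomial.eval (fun i => mk k₀ (ζ i))).comp (MvPolynomial.map c0) =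
      (mk k₀).comp (RingHom.pi fun n => MvPolynomial.eval (fun i => ζ i n)) := by
    refine MvPolynomial.ringHom_ext (fun c => ?_) fun i => ?_
    · rw [RingHom.comp_apply, MvPolynomial.map_C, MvPolynomial.eval_C]
      show mk k₀ (fun _ => c) = mk k₀ (fun n => MvPolynomial.eval (fun i => ζ i n) (MvPolynomial.C c))
      congr 1
      funext n
      rw [MvPolynomial.eval_C]
    · rw [RingHom.comp_apply, MvPolynomial.map_X, MvPolynomial.eval_X]
      show mk k₀ (ζ i) = mk k₀ (fun n => MvPolynomial.eval (fun i => ζ i n) (MvPolynomial.X i))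
      congr 1
      funext n
      rw [MvPolynomial.eval_X]
  exact RingHom.congr_fun h1 Q

lemma eval_phQ (s : ℕ → k₀) (ζ : Fin r → ℕ → k₀) (R : MvPolynomial (Fin r) (Polynomial ℚ)) :
    MvPolynomial.eval (fun i => mk k₀ (ζ i)) (MvPolynomial.map (phQ s) R) =
      mk k₀ fun n => MvPolynomial.eval₂ (evQ (s n)) (fun i => ζ i n) R := by
  have h1 : (MvPolynomial.eval (fun i => mk k₀ (ζ i))).comp (MvPolynomial.map (phQ s)) =
      (mk k₀).comp (RingHom.pi fun n => MvPolynomial.eval₂Hom (evQ (s n)) (fun i => ζ i n)) := by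
    refine MvPolynomial.ringHom_ext (fun c => ?_) fun i => ?_
    · rw [RingHom.comp_apply, MvPolynomial.map_C, MvPolynomial.eval_C]
      show mk k₀ (fun n => Polynomial.eval (s n) (Polynomial.map (Rat.castHom k₀) c)) =
        mk k₀ (fun n => MvPolynomial.eval₂Hom (evQ (s n)) (fun i => ζ i n) (MvPolynomial.C c))
      congr 1
      funext n
      rw [MvPolynomial.eval₂Hom_C, Polynomial.eval_map]
      rfl
    · rw [RingHom.comp_apply, MvPolynomial.map_X, MvPolynomial.eval_X]
      show mk k₀ (ζ i) = mk k₀ (fun n => MvPolynomial.eval₂Hom (evQ (s n)) (fun i => ζ i n) (MvPolynomial.X i))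
      congr 1
      funext n
      rw [MvPolynomial.eval₂Hom_X']
  exact RingHom.congr_fun h1 R

/-- points of the fibre -/
lemma mem_VV [Algebra k₀ ℂ] {h : Fin r → ℚ⟦X⟧} {x : k₀} {y : Fin r → k₀}
    (hy : ∀ R : MvPolynomial (Fin r) (Polynomial ℚ), MvPolynomial.aeval h R = 0 → MvPolynomial.eval₂ (evQ x) y R = 0) :
    (fun i => algebraMap k₀ ℂ (y i)) ∈ VV h (algebraMap k₀ ℂ x) := by
  intro R hR
  rw [evQ_aeval]
  have h1 := congrArg (algebraMap k₀ ℂ) (hy R hR)
  rw [map_zero, MvPolynomial.hom_eval₂] at h1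
  have h2 : (algebraMap k₀ ℂ).comp (evQ x) = evQ (algebraMap k₀ ℂ x) := by
    refine Polynomial.ringHom_ext (fun a => ?_) ?_
    · show algebraMap k₀ ℂ (Polynomial.eval₂ _ x (Polynomial.C a)) = Polynomial.eval₂ _ _ (Polynomial.C a)
      rw [Polynomial.eval₂_C, Polynomial.eval₂_C]
      show algebraMap k₀ ℂ ((a : ℚ) : k₀) = ((a : ℚ) : ℂ)
      rw [map_ratCast]
    · show algebraMap k₀ ℂ (Polynomial.eval₂ _ x Polynomial.X) = Polynomial.eval₂ _ _ Polynomial.X
      rw [Polynomial.eval₂_X, Polynomial.eval₂_X]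
  rw [h2] at h1
  exact h1

/-- a linear functional as an additive map -/
lemma lin_mul [Algebra k₀ ℂ] (θ : ℂ →ₗ[k₀] k₀) (a : ℂ) (u : k₀) : θ.toAddMonoidHom (a * algebraMap k₀ ℂ u) = θ.toAddMonoidHom a * u := by
  show θ (a * algebraMap k₀ ℂ u) = θ a * u
  rw [mul_comm a, ← Algebra.smul_def, map_smul, smul_eq_mul, mul_comm]

/-- the polynomials which vanish on the fibres -/
noncomputable def GG [Algebra k₀ ℂ] {J : Type} [Fintype J] (M : J → MvPolynomial (Option (Fin r)) ℂ) (F : ℕ → J → k₀) (θ : ℂ →ₗ[k₀] k₀)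
    (l : ℕ) : MvPolynomial (Fin r) (U k₀) :=
  ∑ j, MvPolynomial.C (mk k₀ fun n => F n j) * MvPolynomial.map c0 (app θ.toAddMonoidHom (sub l (M j)))

theorem G_mem [IsAlgClosed k₀] [Algebra k₀ ℂ] {J : Type} [Fintype J] {h : Fin r → ℚ⟦X⟧} (hc : Conn h)
    {M : J → MvPolynomial (Option (Fin r)) ℂ} {s : ℕ → k₀} (hs : Function.Injective s) {F : ℕ → J → k₀}
    (hF : ∀ (n l : ℕ) (y : Fin r → k₀), (fun i => algebraMap k₀ ℂ (y i)) ∈ VV h (algebraMap k₀ ℂ (s n)) →
      ∑ j, algebraMap k₀ ℂ (F n j) * MvPolynomial.eval (fun o => o.elim (l : ℂ) fun i => algebraMap k₀ ℂ (y i)) (M j) = 0)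
    (θ : ℂ →ₗ[k₀] k₀) (l : ℕ) : GG M F θ l ∈ spJ (fA h) (phQ s) := by
  classical
  have hprime : (spJ (fA h) (phQ s)).IsPrime ∨ (spJ (fA h) (phQ s)) = ⊤ := by
    by_cases htop : spJ (fA h) (phQ s) = ⊤
    · exact Or.inr htop
    · exact Or.inl ⟨htop, fun {F G} hFG => prime_core (fA h) (fA_inj h) (conn_reg hc) (phQ s) (phQ_inj hs) F G hFG⟩
  rcases hprime with hprime | htop
  swap
  · rw [htop]
    exact Submodule.mem_top
  have hac : IsAlgClosed (U k₀) := u_closed
  have hns := MvPolynomial.vanishingIdeal_zeroLocus_eq_radical (k := U k₀) (K := U k₀) (spJ (fA h) (phQ s))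
  rw [hprime.radical] at hns
  rw [← hns, MvPolynomial.mem_vanishingIdeal_iff]
  intro z hz
  rw [MvPolynomial.mem_zeroLocus_iff] at hz
  choose ζ hζ using fun i => mk_surj (k := k₀) (z i)
  have hzζ : z = fun i => mk k₀ (ζ i) := funext fun i => (hζ i).symm
  -- the relations
  have hnoeth : (RingHom.ker (MvPolynomial.aeval h : MvPolynomial (Fin r) (Polynomial ℚ) →ₐ[Polynomial ℚ] ℚ⟦X⟧).toRingHom).FG :=
    (isNoetherianRing_iff_ideal_fg _).1 inferInstance _
  obtain ⟨G, hG⟩ := hnoeth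
  have hev : ∀ᶠ n in (hyperfilter ℕ : Filter ℕ), ∀ R ∈ G, MvPolynomial.eval₂ (evQ (s n)) (fun i => ζ i n) R = 0 := by
    rw [Filter.eventually_all_finset]
    intro R hR
    have h1 : MvPolynomial.aeval h R = 0 := by
      have h2 : R ∈ RingHom.ker (MvPolynomial.aeval h : MvPolynomial (Fin r) (Polynomial ℚ) →ₐ[Polynomial ℚ] ℚ⟦X⟧).toRingHom := by
        rw [← hG]
        exact Ideal.subset_span hR
      exact h2
    have h2 := hz (MvPolynomial.map (phQ s) R) (Ideal.subset_span ⟨R, (fA_eq_zero h R).2 h1, rfl⟩)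
    rw [hzζ, MvPolynomial.aeval_def, Algebra.algebraMap_self, MvPolynomial.eval₂_id] at h2
    rw [eval_phQ, mk_eq_zero] at h2
    exact h2
  rw [hzζ, MvPolynomial.aeval_def, Algebra.algebraMap_self, MvPolynomial.eval₂_id]
  unfold GG
  rw [map_sum]
  have h1 : ∀ j, MvPolynomial.eval (fun i => mk k₀ (ζ i))
      (MvPolynomial.C (mk k₀ fun n => F n j) * MvPolynomial.map c0 (app θ.toAddMonoidHom (sub l (M j)))) =
      mk k₀ fun n => F n j * MvPolynomial.eval (fun i => ζ i n) (app θ.toAddMonoidHom (sub l (M j))) := by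
    intro j
    rw [map_mul, MvPolynomial.eval_C, eval_c0, ← map_mul]
    rfl
  rw [Finset.sum_congr rfl fun j _ => h1 j, ← map_sum, mk_eq_zero]
  filter_upwards [hev] with n hn
  have hVV : (fun i => algebraMap k₀ ℂ (ζ i n)) ∈ VV h (algebraMap k₀ ℂ (s n)) := by
    refine mem_VV fun R hR => ?_
    have h2 : (RingHom.ker (MvPolynomial.aeval h : MvPolynomial (Fin r) (Polynomial ℚ) →ₐ[Polynomial ℚ] ℚ⟦X⟧).toRingHom) ≤
        RingHom.ker (MvPolynomial.eval₂Hom (evQ (s n)) (fun i => ζ i n)) := by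
      rw [← hG]
      exact Ideal.span_le.2 fun R hR => hn R hR
    exact h2 (show R ∈ RingHom.ker _ from hR)
  rw [Finset.sum_apply]
  have h2 := hF n l _ hVV
  have h3 : ∀ j, F n j * MvPolynomial.eval (fun i => ζ i n) (app θ.toAddMonoidHom (sub l (M j))) =
      θ (algebraMap k₀ ℂ (F n j) * MvPolynomial.eval (fun o => o.elim (l : ℂ) fun i => algebraMap k₀ ℂ (ζ i n)) (M j)) := by
    intro j
    have h4 := eval_app θ.toAddMonoidHom (algebraMap k₀ ℂ) (RingHom.id k₀) (lin_mul θ) (fun i => ζ i n) (sub l (M j))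
    rw [eval_sub] at h4
    simp only [RingHom.id_apply] at h4
    rw [h4, ← Algebra.smul_def, map_smul, smul_eq_mul]
    rfl
  rw [Finset.sum_congr rfl fun j _ => h3 j, ← map_sum, h2, map_zero]

end

end Q207.AF
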