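import Pool.Agent.Q207.AF.Core

/-!
# Relations over the algebraic closure which hold on the fibres come from functional relations, part two
-/

set_option autoImplicit false
set_option linter.unusedSectionVars false

open PowerSeries Filter Pool.Agent.Y118.UL Pool.Agent.Y340.AF Pool.Agent.Y120.GH

namespace Q207.AF

section
variable {r : ℕ} {k₀ : Type} [Field k₀] [CharZero k₀]

/-- the functions over `k₀` -/
noncomputable def hk (h : Fin r → ℚ⟦X⟧) (i : Fin r) : k₀⟦X⟧ := PowerSeries.map (Rat.castHom k₀) (h i)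

/-- the embedding of the field of rational functions into the ultrapower -/
noncomputable def jL {s : ℕ → k₀} (hs : Function.Injective s) : FractionRing (Polynomial k₀) →+* U k₀ :=
  IsFractionRing.lift (A := Polynomial k₀) (K := FractionRing (Polynomial k₀)) (g := phK s) (phK_inj hs)

lemma jL_alg {s : ℕ → k₀} (hs : Function.Injective s) (q : Polynomial k₀) :
    jL hs (algebraMap (Polynomial k₀) (FractionRing (Polynomial k₀)) q) = phK s q := IsFractionRing.lift_algebraMap _ q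

/-- rational polynomials as rational functions -/
noncomputable def phF : Polynomial ℚ →+* FractionRing (Polynomial k₀) :=
  (algebraMap (Polynomial k₀) (FractionRing (Polynomial k₀))).comp (Polynomial.mapRingHom (Rat.castHom k₀))

/-- constants as rational functions -/
noncomputable def cF : k₀ →+* FractionRing (Polynomial k₀) :=
  (algebraMap (Polynomial k₀) (FractionRing (Polynomial k₀))).comp Polynomial.C

lemma jL_phF {s : ℕ → k₀} (hs : Function.Injective s) : (jL hs).comp phF = phQ s := by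
  refine RingHom.ext fun q => ?_
  rw [RingHom.comp_apply, phF, RingHom.comp_apply, jL_alg, phQ, RingHom.comp_apply]

lemma jL_cF {s : ℕ → k₀} (hs : Function.Injective s) : (jL hs).comp cF = c0 := by
  rw [← phK_C s]
  refine RingHom.ext fun q => ?_
  rw [RingHom.comp_apply, cF, RingHom.comp_apply, jL_alg, RingHom.comp_apply]

lemma coe_inj : Function.Injective ((algebraMap k₀⟦X⟧ (FractionRing k₀⟦X⟧)).comp (Polynomial.coeToPowerSeries.ringHom (R := k₀))) :=
  (IsFractionRing.injective k₀⟦X⟧ (FractionRing k₀⟦X⟧)).comp (Polynomial.coe_injective k₀)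

/-- rational functions as quotients of power series -/
noncomputable def kO : FractionRing (Polynomial k₀) →+* FractionRing k₀⟦X⟧ :=
  IsFractionRing.lift (A := Polynomial k₀) (K := FractionRing (Polynomial k₀))
    (g := (algebraMap k₀⟦X⟧ (FractionRing k₀⟦X⟧)).comp (Polynomial.coeToPowerSeries.ringHom (R := k₀))) coe_inj

lemma kO_alg (q : Polynomial k₀) :
    kO (algebraMap (Polynomial k₀) (FractionRing (Polynomial k₀)) q) = algebraMap k₀⟦X⟧ (FractionRing k₀⟦X⟧) (q : k₀⟦X⟧) :=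
  IsFractionRing.lift_algebraMap _ q

/-- evaluation at the functions -/
noncomputable def evO (h : Fin r → ℚ⟦X⟧) : MvPolynomial (Fin r) (FractionRing (Polynomial k₀)) →+* FractionRing k₀⟦X⟧ :=
  MvPolynomial.eval₂Hom kO fun i => algebraMap k₀⟦X⟧ (FractionRing k₀⟦X⟧) (hk h i)

lemma aeval_C' (h : Fin r → ℚ⟦X⟧) (q : Polynomial ℚ) :
    (MvPolynomial.aeval h : MvPolynomial (Fin r) (Polynomial ℚ) →ₐ[Polynomial ℚ] ℚ⟦X⟧).toRingHom (MvPolynomial.C q) = (q : ℚ⟦X⟧) := by
  show MvPolynomial.aeval h (MvPolynomial.C q) = _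
  rw [MvPolynomial.aeval_C]
  rw [PowerSeries.algebraMap_apply']
  rfl

lemma aeval_X' (h : Fin r → ℚ⟦X⟧) (i : Fin r) :
    (MvPolynomial.aeval h : MvPolynomial (Fin r) (Polynomial ℚ) →ₐ[Polynomial ℚ] ℚ⟦X⟧).toRingHom (MvPolynomial.X i) = h i :=
  MvPolynomial.aeval_X h i

lemma evO_phF (h : Fin r → ℚ⟦X⟧) (R : MvPolynomial (Fin r) (Polynomial ℚ)) :
    evO (k₀ := k₀) h (MvPolynomial.map phF R) =
      algebraMap k₀⟦X⟧ (FractionRing k₀⟦X⟧) (PowerSeries.map (Rat.castHom k₀) (MvPolynomial.aeval h R)) := by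
  have h1 : (evO (k₀ := k₀) h).comp (MvPolynomial.map phF) =
      ((algebraMap k₀⟦X⟧ (FractionRing k₀⟦X⟧)).comp (PowerSeries.map (Rat.castHom k₀))).comp
        (MvPolynomial.aeval h : MvPolynomial (Fin r) (Polynomial ℚ) →ₐ[Polynomial ℚ] ℚ⟦X⟧).toRingHom := by
    refine MvPolynomial.ringHom_ext (fun q => ?_) fun i => ?_
    · rw [RingHom.comp_apply, MvPolynomial.map_C, evO, MvPolynomial.eval₂Hom_C, phF, RingHom.comp_apply, kO_alg,
        RingHom.comp_apply, RingHom.comp_apply]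
      congr 1
      rw [aeval_C']
      ext n
      rw [Polynomial.coeff_coe, PowerSeries.coeff_map, Polynomial.coeff_coe, Polynomial.coe_mapRingHom, Polynomial.coeff_map]
    · rw [RingHom.comp_apply, MvPolynomial.map_X, evO, MvPolynomial.eval₂Hom_X', RingHom.comp_apply, RingHom.comp_apply, aeval_X']
      rfl
  exact RingHom.congr_fun h1 R

lemma evO_cF (h : Fin r → ℚ⟦X⟧) (Q : MvPolynomial (Fin r) k₀) :
    evO (k₀ := k₀) h (MvPolynomial.map cF Q) = algebraMap k₀⟦X⟧ (FractionRing k₀⟦X⟧) (MvPolynomial.eval₂ PowerSeries.C (hk h) Q) := by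
  have h1 : (evO (k₀ := k₀) h).comp (MvPolynomial.map cF) =
      (algebraMap k₀⟦X⟧ (FractionRing k₀⟦X⟧)).comp (MvPolynomial.eval₂Hom PowerSeries.C (hk h)) := by
    refine MvPolynomial.ringHom_ext (fun q => ?_) fun i => ?_
    · rw [RingHom.comp_apply, MvPolynomial.map_C, RingHom.comp_apply, MvPolynomial.eval₂Hom_C, evO, MvPolynomial.eval₂Hom_C,
        cF, RingHom.comp_apply, kO_alg, Polynomial.coe_C]
    · rw [RingHom.comp_apply, MvPolynomial.map_X, RingHom.comp_apply, MvPolynomial.eval₂Hom_X', evO, MvPolynomial.eval₂Hom_X']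
  exact RingHom.congr_fun h1 Q

/-- the functional relations from a linear functional on the ultrapower -/
theorem psi_rel [IsAlgClosed k₀] [Algebra k₀ ℂ] {J : Type} [Fintype J] {h : Fin r → ℚ⟦X⟧} (hc : Conn h)
    {M : J → MvPolynomial (Option (Fin r)) ℂ} {s : ℕ → k₀} (hs : Function.Injective s) {F : ℕ → J → k₀}
    (hF : ∀ (n l : ℕ) (y : Fin r → k₀), (fun i => algebraMap k₀ ℂ (y i)) ∈ VV h (algebraMap k₀ ℂ (s n)) →
      ∑ j, algebraMap k₀ ℂ (F n j) * MvPolynomial.eval (fun o => o.elim (l : ℂ) fun i => algebraMap k₀ ℂ (y i)) (M j) = 0)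
    (ψ : U k₀ →+ FractionRing (Polynomial k₀)) (hψ : ∀ a u, ψ (a * jL hs u) = ψ a * u)
    (g : Polynomial k₀) (R : J → Polynomial k₀)
    (hR : ∀ j, algebraMap (Polynomial k₀) (FractionRing (Polynomial k₀)) (R j) =
      algebraMap (Polynomial k₀) (FractionRing (Polynomial k₀)) g * ψ (mk k₀ fun n => F n j))
    (θ : ℂ →ₗ[k₀] k₀) (l : ℕ) :
    ∑ j, ((R j : Polynomial k₀) : k₀⟦X⟧) * MvPolynomial.eval₂ PowerSeries.C (hk h) (app θ.toAddMonoidHom (sub l (M j))) = 0 := by
  classical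
  have h1 := G_mem hc hs hF θ l
  have h2 : spJ (fA h) (phQ s) = Ideal.span (MvPolynomial.map (jL hs) '' {u | ∃ R, fA h R = 0 ∧ u = MvPolynomial.map phF R}) := by
    unfold spJ
    congr 1
    ext F
    constructor
    · rintro ⟨R, hR, rfl⟩
      refine ⟨MvPolynomial.map phF R, ⟨R, hR, rfl⟩, ?_⟩
      rw [MvPolynomial.map_map, jL_phF]
    · rintro ⟨_, ⟨R, hR, rfl⟩, rfl⟩
      refine ⟨R, hR, ?_⟩
      rw [MvPolynomial.map_map, jL_phF]
  rw [h2] at h1
  have h3 := app_mem ψ (jL hs) hψ _ h1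
  have h4 : evO h (app ψ (GG M F θ l)) = 0 := by
    have h5 : Ideal.span {u : MvPolynomial (Fin r) (FractionRing (Polynomial k₀)) | ∃ R, fA h R = 0 ∧ u = MvPolynomial.map phF R} ≤
        RingHom.ker (evO (k₀ := k₀) h) := by
      refine Ideal.span_le.2 ?_
      rintro _ ⟨R, hR, rfl⟩
      show evO h (MvPolynomial.map phF R) = 0
      rw [evO_phF, (fA_eq_zero h R).1 hR, map_zero, map_zero]
    exact h5 h3
  have h5 : app ψ (GG M F θ l) =
      ∑ j, MvPolynomial.C (ψ (mk k₀ fun n => F n j)) * MvPolynomial.map cF (app θ.toAddMonoidHom (sub l (M j))) := by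
    unfold GG
    rw [app_sum]
    refine Finset.sum_congr rfl fun j _ => ?_
    rw [← jL_cF hs, ← MvPolynomial.map_map]
    have h6 := app_mul ψ (jL hs) (RingHom.id _) (fun a u => hψ a u)
      (MvPolynomial.C (mk k₀ fun n => F n j)) (MvPolynomial.map cF (app θ.toAddMonoidHom (sub l (M j))))
    rw [MvPolynomial.map_id] at h6
    rw [h6, app_C]
  rw [h5, map_sum] at h4
  apply IsFractionRing.injective k₀⟦X⟧ (FractionRing k₀⟦X⟧)
  rw [map_zero, map_sum]
  have h6 : ∀ j, algebraMap k₀⟦X⟧ (FractionRing k₀⟦X⟧) (((R j : Polynomial k₀) : k₀⟦X⟧) *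
      MvPolynomial.eval₂ PowerSeries.C (hk h) (app θ.toAddMonoidHom (sub l (M j)))) =
      kO (algebraMap (Polynomial k₀) (FractionRing (Polynomial k₀)) g) *
      evO h (MvPolynomial.C (ψ (mk k₀ fun n => F n j)) * MvPolynomial.map cF (app θ.toAddMonoidHom (sub l (M j)))) := by
    intro j
    rw [map_mul, ← kO_alg, hR, map_mul kO, map_mul (evO h), evO_cF, mul_assoc]
    congr 2
    unfold evO
    rw [MvPolynomial.eval₂Hom_C]
  rw [Finset.sum_congr rfl fun j _ => h6 j, ← Finset.mul_sum, h4, mul_zero]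

/-- coefficients -/
lemma th_coeff [Algebra k₀ ℂ] (h : Fin r → ℚ⟦X⟧) (θ : ℂ →ₗ[k₀] k₀) (u : Polynomial k₀) (Q : MvPolynomial (Fin r) ℂ) (m : ℕ) :
    θ (coeff m (((u.map (algebraMap k₀ ℂ) : Polynomial ℂ) : ℂ⟦X⟧) * MvPolynomial.eval₂ PowerSeries.C (fun i => cx (h i)) Q)) =
      coeff m ((u : k₀⟦X⟧) * MvPolynomial.eval₂ PowerSeries.C (hk h) (app θ.toAddMonoidHom Q)) := by
  classical
  have hcx : ∀ i, cx (h i) = PowerSeries.map (algebraMap k₀ ℂ) (hk h i) := by
    intro i
    ext n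
    unfold hk
    rw [coeff_cx, PowerSeries.coeff_map, PowerSeries.coeff_map]
    show _ = algebraMap k₀ ℂ ((coeff n (h i) : ℚ) : k₀)
    rw [map_ratCast]
  have hu : ((u.map (algebraMap k₀ ℂ) : Polynomial ℂ) : ℂ⟦X⟧) = PowerSeries.map (algebraMap k₀ ℂ) (u : k₀⟦X⟧) := by
    rw [Polynomial.polynomial_map_coe]
  have key : ∀ (s : Fin r →₀ ℕ) (a : ℂ), θ (coeff m (((u.map (algebraMap k₀ ℂ) : Polynomial ℂ) : ℂ⟦X⟧) *
      MvPolynomial.eval₂ PowerSeries.C (fun i => cx (h i)) (MvPolynomial.monomial s a))) =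
      coeff m ((u : k₀⟦X⟧) * MvPolynomial.eval₂ PowerSeries.C (hk h) (MvPolynomial.monomial s (θ a))) := by
    intro s a
    rw [MvPolynomial.eval₂_monomial, MvPolynomial.eval₂_monomial]
    have h1 : (s.prod fun i e => cx (h i) ^ e) = PowerSeries.map (algebraMap k₀ ℂ) (s.prod fun i e => hk h i ^ e) := by
      rw [map_finsuppProd]
      exact Finsupp.prod_congr fun i _ => by rw [hcx, map_pow]
    rw [h1, hu, mul_left_comm, ← map_mul, PowerSeries.coeff_C_mul, PowerSeries.coeff_map, mul_left_comm, PowerSeries.coeff_C_mul]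
    exact lin_mul θ _ _
  conv_lhs => rw [Q.as_sum, MvPolynomial.eval₂_sum, Finset.mul_sum, map_sum, map_sum]
  unfold app
  rw [MvPolynomial.eval₂_sum, Finset.mul_sum, map_sum]
  exact Finset.sum_congr rfl fun s _ => key s _

theorem psi_rel2 [IsAlgClosed k₀] [Algebra k₀ ℂ] {J : Type} [Fintype J] {h : Fin r → ℚ⟦X⟧} (hc : Conn h)
    {M : J → MvPolynomial (Option (Fin r)) ℂ} {s : ℕ → k₀} (hs : Function.Injective s) {F : ℕ → J → k₀}
    (hF : ∀ (n l : ℕ) (y : Fin r → k₀), (fun i => algebraMap k₀ ℂ (y i)) ∈ VV h (algebraMap k₀ ℂ (s n)) →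
      ∑ j, algebraMap k₀ ℂ (F n j) * MvPolynomial.eval (fun o => o.elim (l : ℂ) fun i => algebraMap k₀ ℂ (y i)) (M j) = 0)
    (ψ : U k₀ →+ FractionRing (Polynomial k₀)) (hψ : ∀ a u, ψ (a * jL hs u) = ψ a * u)
    (g : Polynomial k₀) (R : J → Polynomial k₀)
    (hR : ∀ j, algebraMap (Polynomial k₀) (FractionRing (Polynomial k₀)) (R j) =
      algebraMap (Polynomial k₀) (FractionRing (Polynomial k₀)) g * ψ (mk k₀ fun n => F n j)) : Rel h M R := by
  classical
  intro l
  ext m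
  rw [map_zero]
  refine (Module.forall_dual_apply_eq_zero_iff k₀ _).1 fun θ => ?_
  rw [map_sum, map_sum]
  have h1 := congrArg (coeff m) (psi_rel hc hs hF ψ hψ g R hR θ l)
  rw [map_sum, map_zero] at h1
  rw [← h1]
  exact Finset.sum_congr rfl fun j _ => th_coeff h θ (R j) (sub l (M j)) m

end

end Q207.AF
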