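import Pool.Agent.Q207.AF.Core2

/-!
# Relations over the algebraic closure which hold on the fibres come from functional relations, part three
-/

set_option autoImplicit false
set_option linter.unusedSectionVars false

open PowerSeries Filter Pool.Agent.Y118.UL Pool.Agent.Y340.AF Pool.Agent.Y120.GH

namespace Q207.AF

section
variable {r : ℕ} {k₀ : Type} [Field k₀] [CharZero k₀]

theorem core [IsAlgClosed k₀] [Algebra k₀ ℂ] {J : Type} [Fintype J] {h : Fin r → ℚ⟦X⟧} (hc : Conn h)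
    (M : J → MvPolynomial (Option (Fin r)) ℂ) {s : ℕ → k₀} (hs : Function.Injective s) (F : ℕ → J → k₀)
    (hF : ∀ (n l : ℕ) (y : Fin r → k₀), (fun i => algebraMap k₀ ℂ (y i)) ∈ VV h (algebraMap k₀ ℂ (s n)) →
      ∑ j, algebraMap k₀ ℂ (F n j) * MvPolynomial.eval (fun o => o.elim (l : ℂ) fun i => algebraMap k₀ ℂ (y i)) (M j) = 0) :
    ∃ n, F n ∈ Submodule.span k₀ {v : J → k₀ | ∃ R : J → Polynomial k₀, Rel h M R ∧ v = fun j => (R j).eval (s n)} := by
  classical
  let K' := FractionRing (Polynomial k₀)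
  let am : Polynomial k₀ →+* K' := algebraMap (Polynomial k₀) K'
  let alg : Algebra K' (U k₀) := (jL hs).toAlgebra
  let b := Module.Basis.ofVectorSpace K' (U k₀)
  let Fs : J → U k₀ := fun j => mk k₀ fun n => F n j
  let T : Finset _ := Finset.univ.biUnion fun j => (b.repr (Fs j)).support
  have hsm : ∀ (c : K') (x : U k₀), c • x = jL hs c * x := fun c x => Algebra.smul_def c x
  have hψ : ∀ κ (a : U k₀) (u : K'), (b.coord κ).toAddMonoidHom (a * jL hs u) = (b.coord κ).toAddMonoidHom a * u := by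
    intro κ a u
    show b.coord κ (a * jL hs u) = b.coord κ a * u
    rw [mul_comm a, ← hsm, map_smul, smul_eq_mul, mul_comm]
  -- denominators
  have hden : ∀ κ, ∃ (g : Polynomial k₀) (R : J → Polynomial k₀), g ≠ 0 ∧ ∀ j, am (R j) = am g * b.coord κ (Fs j) := by
    intro κ
    obtain ⟨g, hg⟩ := IsLocalization.exist_integer_multiples_of_finite (nonZeroDivisors (Polynomial k₀)) fun j => b.coord κ (Fs j)
    choose R hR using hg
    refine ⟨g, R, nonZeroDivisors.ne_zero g.2, fun j => ?_⟩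
    rw [← Algebra.smul_def]
    exact hR j
  choose g R hg hR using hden
  have hRel : ∀ κ, Rel h M (R κ) := fun κ => psi_rel2 hc hs hF (b.coord κ).toAddMonoidHom (hψ κ) (g κ) (R κ) (hR κ)
  choose β hβ using fun κ => mk_surj (k := k₀) (b κ)
  set Γ : Polynomial k₀ := ∏ κ ∈ T, g κ with hΓ
  have hΓ0 : Γ ≠ 0 := Finset.prod_ne_zero_iff.2 fun κ _ => hg κ
  let Γ' : _ → Polynomial k₀ := fun κ => ∏ κ' ∈ T.erase κ, g κ'
  have hmain : ∀ j, phK s Γ * Fs j = ∑ κ ∈ T, phK s (Γ' κ * R κ j) * b κ := by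
    intro j
    have h1 : Fs j = ∑ κ ∈ T, (b.repr (Fs j) κ) • b κ := by
      have h2 := b.linearCombination_repr (Fs j)
      rw [Finsupp.linearCombination_apply, Finsupp.sum_of_support_subset _
        (Finset.subset_biUnion_of_mem (fun j => (b.repr (Fs j)).support) (Finset.mem_univ j)) _ (by simp)] at h2
      exact h2.symm
    conv_lhs => rw [h1]
    rw [Finset.mul_sum]
    refine Finset.sum_congr rfl fun κ hκ => ?_
    rw [hsm, ← mul_assoc, ← jL_alg hs, ← jL_alg hs, ← map_mul]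
    congr 2
    rw [map_mul]
    have h3 : am Γ = am (Γ' κ) * am (g κ) := by
      rw [← map_mul, hΓ]
      congr 1
      rw [mul_comm]
      exact (Finset.mul_prod_erase T g hκ).symm
    show am Γ * _ = am (Γ' κ) * am (R κ j)
    rw [h3, hR, mul_assoc]
    rfl
  have hev : ∀ᶠ n in (hyperfilter ℕ : Filter ℕ), ∀ j ∈ (Finset.univ : Finset J),
      Γ.eval (s n) * F n j = ∑ κ ∈ T, (Γ' κ * R κ j).eval (s n) * β κ n := by
    rw [Filter.eventually_all_finset]
    intro j _
    have h1 := hmain j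
    have h2 : phK s Γ * Fs j = mk k₀ fun n => Γ.eval (s n) * F n j := by
      show mk k₀ (fun n => Γ.eval (s n)) * mk k₀ (fun n => F n j) = _
      rw [← map_mul]
      rfl
    have h3 : ∑ κ ∈ T, phK s (Γ' κ * R κ j) * b κ = mk k₀ fun n => ∑ κ ∈ T, (Γ' κ * R κ j).eval (s n) * β κ n := by
      have h4 : ∀ κ, phK s (Γ' κ * R κ j) * b κ = mk k₀ fun n => (Γ' κ * R κ j).eval (s n) * β κ n := by
        intro κ
        rw [← hβ κ]
        show mk k₀ (fun n => (Γ' κ * R κ j).eval (s n)) * mk k₀ (β κ) = _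
        rw [← map_mul]
        rfl
      rw [Finset.sum_congr rfl fun κ _ => h4 κ, ← map_sum]
      congr 1
      funext n
      rw [Finset.sum_apply]
    rw [h2, h3, mk_eq] at h1
    exact h1
  obtain ⟨n, hn1, hn2⟩ := (hev.and (ev_ne hs hΓ0)).exists
  refine ⟨n, ?_⟩
  have h1 : F n = ∑ κ ∈ T, ((Γ.eval (s n))⁻¹ * ((Γ' κ).eval (s n) * β κ n)) • fun j => (R κ j).eval (s n) := by
    funext j
    rw [Finset.sum_apply]
    have h2 := hn1 j (Finset.mem_univ j)
    have h3 : F n j = (Γ.eval (s n))⁻¹ * (Γ.eval (s n) * F n j) := by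
      rw [← mul_assoc, inv_mul_cancel₀ hn2, one_mul]
    rw [h3, h2, Finset.mul_sum]
    refine Finset.sum_congr rfl fun κ _ => ?_
    rw [Pi.smul_apply, smul_eq_mul, Polynomial.eval_mul]
    ring
  rw [h1]
  exact Submodule.sum_mem _ fun κ _ => Submodule.smul_mem _ _ (Submodule.subset_span ⟨R κ, hRel κ, rfl⟩)

/-- the set of the bad points is finite -/
theorem bad_finite [IsAlgClosed k₀] [Algebra k₀ ℂ] {J : Type} [Fintype J] {h : Fin r → ℚ⟦X⟧} (hc : Conn h)
    (M : J → MvPolynomial (Option (Fin r)) ℂ) :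
    {s : k₀ | ∃ F : J → k₀, (∀ (l : ℕ) (y : Fin r → k₀), (fun i => algebraMap k₀ ℂ (y i)) ∈ VV h (algebraMap k₀ ℂ s) →
      ∑ j, algebraMap k₀ ℂ (F j) * MvPolynomial.eval (fun o => o.elim (l : ℂ) fun i => algebraMap k₀ ℂ (y i)) (M j) = 0) ∧
      F ∉ Submodule.span k₀ {v : J → k₀ | ∃ R : J → Polynomial k₀, Rel h M R ∧ v = fun j => (R j).eval s}}.Finite := by
  by_contra hinf
  have hinf' : Set.Infinite _ := hinf
  obtain ⟨f, hf⟩ := hinf'.natEmbedding
  choose F hF1 hF2 using fun n => (f n).2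
  obtain ⟨n, hn⟩ := core hc M (s := fun n => (f n : k₀)) (fun a b hab => hf (Subtype.ext hab)) F hF1
  exact hF2 n hn

end

end Q207.AF
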