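import Pool.Agent.Q207.AF.Tz

/-!
# Tuples with a coordinate in a finite set; growing degrees
-/

set_option autoImplicit false
set_option linter.unusedSectionVars false

open Filter Module Pool.Agent.Y916 PowerSeries

namespace Q207.AF

lemma near_fin (I : Set ℂ) (hI : I.Finite) (B : Set ℂ) (hB : B.Finite) (k : ℕ) :
    ({α : Fin k → ℂ | (∀ i, α i ∈ I) ∧ ∃ i, α i ∈ B}.ncard : ℝ) ≤ k * ((B.ncard : ℝ) * (I.ncard : ℝ) ^ (k - 1)) := by
  classical
  have hsub : {α : Fin k → ℂ | (∀ i, α i ∈ I) ∧ ∃ i, α i ∈ B} ⊆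
      ((Finset.univ.biUnion fun i : Fin k => Fintype.piFinset fun j : Fin k => if j = i then hB.toFinset else hI.toFinset :
        Finset (Fin k → ℂ)) : Set (Fin k → ℂ)) := by
    rintro α ⟨h1, i, h2⟩
    rw [Finset.mem_coe, Finset.mem_biUnion]
    refine ⟨i, Finset.mem_univ _, ?_⟩
    rw [Fintype.mem_piFinset]
    intro j
    by_cases hj : j = i
    · rw [if_pos hj, hj]
      exact hB.mem_toFinset.2 h2
    · rw [if_neg hj]
      exact hI.mem_toFinset.2 (h1 j)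
  have h1 := Set.ncard_le_ncard hsub (Finset.finite_toSet _)
  rw [Set.ncard_coe_finset] at h1
  have h2 : (Finset.univ.biUnion fun i : Fin k => Fintype.piFinset fun j : Fin k =>
      if j = i then hB.toFinset else hI.toFinset).card ≤ k * (B.ncard * I.ncard ^ (k - 1)) := by
    refine Finset.card_biUnion_le.trans ?_
    refine (Finset.sum_le_card_nsmul _ _ (B.ncard * I.ncard ^ (k - 1)) fun i _ => ?_).trans (le_of_eq ?_)
    · rw [Fintype.card_piFinset, ← Finset.mul_prod_erase Finset.univ _ (Finset.mem_univ i), if_pos rfl,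
        Set.ncard_eq_toFinset_card B hB, Set.ncard_eq_toFinset_card I hI]
      refine Nat.mul_le_mul_left _ (le_of_eq ?_)
      rw [Finset.prod_congr rfl fun j hj => by rw [if_neg (Finset.ne_of_mem_erase hj)], Finset.prod_const,
        Finset.card_erase_of_mem (Finset.mem_univ i), Finset.card_univ, Fintype.card_fin]
    · rw [Finset.card_univ, Fintype.card_fin, smul_eq_mul]
  exact_mod_cast h1.trans h2

/-- the number of the algebraic integers tends to infinity -/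
lemma sint_inf (m : ℕ) (hm : 1 ≤ m) : Tendsto (fun T : ℕ => ({α : ℂ | Sl.SInt m T α}.ncard : ℝ)) atTop atTop := by
  obtain ⟨c₁, hc₁, h₁⟩ := Sl.many m hm
  have hM : 1 ≤ Sl.Mm m := by
    rw [Sl.Mm_eq]
    have h2 : 2 ≤ m * (m + 1) := by nlinarith
    omega
  have h2 : Tendsto (fun T : ℕ => c₁ * (T : ℝ)) atTop atTop :=
    Tendsto.const_mul_atTop hc₁ tendsto_natCast_atTop_atTop
  refine tendsto_atTop_mono' _ ?_ h2
  filter_upwards [eventually_ge_atTop 1] with T hT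
  refine le_trans ?_ (h₁ T hT)
  refine mul_le_mul_of_nonneg_left ?_ hc₁.le
  have hT1 : (1 : ℝ) ≤ T := by exact_mod_cast hT
  calc (T : ℝ) = (T : ℝ) ^ 1 := (pow_one _).symm
    _ ≤ (T : ℝ) ^ Sl.Mm m := pow_le_pow_right₀ hT1 hM

/-- growing degrees, in general -/
theorem grow (m : ℕ) (hm : 1 ≤ m) (k : ℕ) {S : Type} (Gd : ℕ → S → (Fin k → ℂ) → Prop)
    (h : ∀ D : ℕ, ∃ c C : ℝ, 0 < c ∧ ∃ B : Set ℂ, B.Finite ∧ ∀ (s : S) (T : ℕ), 1 ≤ T →
      ({α : Fin k → ℂ | (∀ i, Sl.SInt m T (α i) ∧ α i ∉ B) ∧ ¬ Gd D s α}.ncard : ℝ) ≤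
        C * (T : ℝ) ^ (-c) * ({α : ℂ | Sl.SInt m T α}.ncard : ℝ) ^ k) :
    ∃ (D : ℕ → ℕ) (ε : ℕ → ℝ), Tendsto D atTop atTop ∧ Tendsto ε atTop (nhds 0) ∧ ∀ (s : S) (T : ℕ), 1 ≤ T →
      ({α : Fin k → ℂ | (∀ i, Sl.SInt m T (α i)) ∧ ¬ Gd (D T) s α}.ncard : ℝ) ≤
        ε T * ({α : ℂ | Sl.SInt m T α}.ncard : ℝ) ^ k := by
  classical
  choose c C hc B hBf hcount using h
  have hinf := sint_inf m hm
  obtain ⟨D, hD, hε⟩ := Pool.Agent.Y123.GN.diag_seq
    (fun D T => |C D| * (T : ℝ) ^ (-(c D)) + k * ((B D).ncard : ℝ) * (({α : ℂ | Sl.SInt m T α}.ncard : ℝ))⁻¹) (by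
      intro D
      have h2 : Tendsto (fun T : ℕ => (T : ℝ) ^ (-(c D))) atTop (nhds 0) :=
        (tendsto_rpow_neg_atTop (hc D)).comp tendsto_natCast_atTop_atTop
      have h3 := (h2.const_mul |C D|).add (hinf.inv_tendsto_atTop.const_mul (k * ((B D).ncard : ℝ)))
      rw [mul_zero, mul_zero, add_zero] at h3
      exact h3)
  refine ⟨D, _, hD, hε, fun s T hT => ?_⟩
  set N : ℝ := ({α : ℂ | Sl.SInt m T α}.ncard : ℝ) with hN
  have hfin := Sl.sint_fin m T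
  have hNpos : 0 < N := by
    obtain ⟨c₁, hc₁, h₁⟩ := Sl.many m hm
    have hT1 : (0 : ℝ) < T := by exact_mod_cast hT
    exact lt_of_lt_of_le (by positivity) (h₁ T hT)
  have hpi : {α : Fin k → ℂ | ∀ i, Sl.SInt m T (α i)}.Finite := by
    refine (Set.Finite.pi (fun _ : Fin k => hfin)).subset ?_
    intro α hα i _
    exact hα i
  have hsub : {α : Fin k → ℂ | (∀ i, Sl.SInt m T (α i)) ∧ ¬ Gd (D T) s α} ⊆
      {α : Fin k → ℂ | (∀ i, Sl.SInt m T (α i) ∧ α i ∉ B (D T)) ∧ ¬ Gd (D T) s α} ∪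
        {α : Fin k → ℂ | (∀ i, α i ∈ {α : ℂ | Sl.SInt m T α}) ∧ ∃ i, α i ∈ B (D T)} := by
    rintro α ⟨h1, h2⟩
    by_cases h3 : ∃ i, α i ∈ B (D T)
    · exact Or.inr ⟨h1, h3⟩
    · exact Or.inl ⟨fun i => ⟨h1 i, fun h4 => h3 ⟨i, h4⟩⟩, h2⟩
  have h1 := (Set.ncard_le_ncard hsub ((hpi.subset fun α hα i => (hα.1 i).1).union
    (hpi.subset fun α hα i => hα.1 i))).trans (Set.ncard_union_le _ _)
  have h2 : ({α : Fin k → ℂ | (∀ i, Sl.SInt m T (α i)) ∧ ¬ Gd (D T) s α}.ncard : ℝ) ≤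
      C (D T) * (T : ℝ) ^ (-(c (D T))) * N ^ k + k * (((B (D T)).ncard : ℝ) * N ^ (k - 1)) := by
    refine le_trans ?_ (add_le_add (hcount (D T) s T hT) (near_fin _ hfin _ (hBf (D T)) k))
    exact_mod_cast h1
  refine h2.trans ?_
  rw [add_mul]
  refine add_le_add (mul_le_mul_of_nonneg_right (mul_le_mul_of_nonneg_right (le_abs_self _) (by positivity)) (by positivity)) ?_
  rcases Nat.eq_zero_or_pos k with hk | hk
  · subst hk
    simp
  · obtain ⟨q, rfl⟩ : ∃ q, k = q + 1 := ⟨k - 1, by omega⟩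
    refine le_of_eq ?_
    rw [Nat.add_sub_cancel, pow_succ]
    field_simp

end Q207.AF
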