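import Mathlib

/-!
# Diagonal sequences
-/

set_option autoImplicit false

open Filter

namespace Q207.AF

/-- diagonal sequences (from the starting file Y123.GN.E7) -/
theorem diag_seq (f : ℕ → ℕ → ℝ) (hf : ∀ D, Tendsto (f D) atTop (nhds 0)) :
    ∃ g : ℕ → ℕ, Tendsto g atTop atTop ∧ Tendsto (fun N => f (g N) N) atTop (nhds 0) := by
  classical
  have h1 : ∀ D : ℕ, ∃ M : ℕ, ∀ N ≥ M, |f D N| ≤ 1 / ((D : ℝ) + 1) := by
    intro D
    have h2 := (hf D).abs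
    rw [abs_zero] at h2
    have h3 : ∀ᶠ N in atTop, |f D N| < 1 / ((D : ℝ) + 1) := h2.eventually (gt_mem_nhds (by positivity))
    obtain ⟨M, hM⟩ := eventually_atTop.1 h3
    exact ⟨M, fun N hN => (hM N hN).le⟩
  choose M hM using h1
  let p : ℕ → ℕ → Prop := fun N D => ∀ D' ≤ D, M D' ≤ N
  let g : ℕ → ℕ := fun N => Nat.findGreatest (p N) N
  have hg1 : ∀ D₀ : ℕ, ∃ N₀ : ℕ, ∀ N ≥ N₀, D₀ ≤ g N ∧ p N (g N) := by
    intro D₀
    refine ⟨D₀ + ∑ D' ∈ Finset.range (D₀ + 1), M D', fun N hN => ?_⟩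
    have h2 : p N D₀ := by
      intro D' hD'
      have h3 : M D' ≤ ∑ D' ∈ Finset.range (D₀ + 1), M D' :=
        Finset.single_le_sum (f := M) (fun _ _ => Nat.zero_le _) (Finset.mem_range.2 (by omega))
      omega
    have h4 : D₀ ≤ N := by omega
    exact ⟨Nat.le_findGreatest h4 h2, Nat.findGreatest_spec (P := p N) h4 h2⟩
  have hgt : Tendsto g atTop atTop := by
    rw [tendsto_atTop_atTop]
    intro D₀
    obtain ⟨N₀, hN₀⟩ := hg1 D₀
    exact ⟨N₀, fun N hN => (hN₀ N hN).1⟩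
  refine ⟨g, hgt, ?_⟩
  rw [tendsto_zero_iff_abs_tendsto_zero]
  have h5 : Tendsto (fun N => 1 / (((g N : ℕ) : ℝ) + 1)) atTop (nhds 0) :=
    tendsto_one_div_add_atTop_nhds_zero_nat.comp hgt
  refine squeeze_zero' (Eventually.of_forall fun N => abs_nonneg _) ?_ h5
  obtain ⟨N₀, hN₀⟩ := hg1 0
  filter_upwards [eventually_ge_atTop N₀] with N hN
  exact hM (g N) N ((hN₀ N hN).2 (g N) le_rfl)

end Q207.AF
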