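import Pool.Agent.Q207.AF.Core3

/-!
# Formal relations as relations between values
-/

set_option autoImplicit false
set_option linter.unusedSectionVars false

open PowerSeries Pool.Agent.Y340.AF Pool.Agent.Y120.GH

namespace Q207.AF

section
variable {r : ℕ} {k₀ : Type} [Field k₀] [CharZero k₀]

lemma ou_eval {h : Fin r → ℚ⟦X⟧} {C : ℝ} (hC : 0 ≤ C) (hh : ∀ i m, |((coeff m (h i) : ℚ) : ℝ)| ≤ C ^ (m + 1)) {z : ℂ}
    (hz : C < ‖z‖) (Q : MvPolynomial (Fin r) ℂ) :
    MvPolynomial.eval₂ PowerSeries.C (fun i => cx (h i)) Q ∈ Cw C ∧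
      ou (MvPolynomial.eval₂ PowerSeries.C (fun i => cx (h i)) Q) z = MvPolynomial.eval (fun i => ou (cx (h i)) z) Q := by
  induction Q using MvPolynomial.induction_on with
  | C a =>
    rw [MvPolynomial.eval₂_C, MvPolynomial.eval_C]
    exact ⟨C_mem a, ou_C a z⟩
  | add p q hp hq =>
    rw [MvPolynomial.eval₂_add, map_add]
    exact ⟨(Cw C).add_mem hp.1 hq.1, by rw [ou_add hC hp.1 hq.1 hz, hp.2, hq.2]⟩
  | mul_X p i hp =>
    rw [MvPolynomial.eval₂_mul, MvPolynomial.eval₂_X, map_mul, MvPolynomial.eval_X]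
    exact ⟨(Cw C).mul_mem hp.1 (cx_mem hC (hh i)), by rw [ou_mul hC hp.1 (cx_mem hC (hh i)) hz, hp.2]⟩

/-- a formal relation holds for the values, for all numbers in place of the logarithm -/
theorem rel_holds [Algebra k₀ ℂ] {J : Type} [Fintype J] {h : Fin r → ℚ⟦X⟧} {M : J → MvPolynomial (Option (Fin r)) ℂ}
    {R : J → Polynomial k₀} (hR : Rel h M R) {C : ℝ} (hC : 0 ≤ C) (hh : ∀ i m, |((coeff m (h i) : ℚ) : ℝ)| ≤ C ^ (m + 1)) {z : ℂ}
    (hz : C < ‖z‖) (l : ℂ) :
    ∑ j, Polynomial.eval₂ (algebraMap k₀ ℂ) (1 / z) (R j) *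
      MvPolynomial.eval (fun o => o.elim l fun i => ou (cx (h i)) z) (M j) = 0 := by
  classical
  have h1 : ∀ n : ℕ, ∑ j, Polynomial.eval₂ (algebraMap k₀ ℂ) (1 / z) (R j) *
      MvPolynomial.eval (fun o => o.elim (n : ℂ) fun i => ou (cx (h i)) z) (M j) = 0 := by
    intro n
    have h2 := congrArg (fun f => ou f z) (hR n)
    simp only [ou_zero] at h2
    rw [ou_sum hC _ (fun j _ => (Cw C).mul_mem (poly_mem _) (ou_eval hC hh hz _).1) hz] at h2
    rw [← h2]
    refine Finset.sum_congr rfl fun j _ => ?_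
    rw [ou_mul hC (poly_mem _) (ou_eval hC hh hz _).1 hz, (ou_eval hC hh hz _).2, ou_poly, eval_sub, Polynomial.eval_map]
  let p : Polynomial ℂ := ∑ j, Polynomial.C (Polynomial.eval₂ (algebraMap k₀ ℂ) (1 / z) (R j)) *
    MvPolynomial.eval₂ Polynomial.C (fun o : Option (Fin r) => o.elim Polynomial.X fun i => Polynomial.C (ou (cx (h i)) z)) (M j)
  have hp : ∀ x : ℂ, p.eval x = ∑ j, Polynomial.eval₂ (algebraMap k₀ ℂ) (1 / z) (R j) *
      MvPolynomial.eval (fun o => o.elim x fun i => ou (cx (h i)) z) (M j) := by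
    intro x
    simp only [p]
    rw [Polynomial.eval_finsetSum]
    refine Finset.sum_congr rfl fun j _ => ?_
    rw [Polynomial.eval_mul, Polynomial.eval_C]
    congr 1
    have h3 : (Polynomial.evalRingHom x).comp (MvPolynomial.eval₂Hom Polynomial.C
        (fun o : Option (Fin r) => o.elim Polynomial.X fun i => Polynomial.C (ou (cx (h i)) z))) =
        MvPolynomial.eval (fun o : Option (Fin r) => o.elim x fun i => ou (cx (h i)) z) := by
      refine MvPolynomial.ringHom_ext (fun c => ?_) fun o => ?_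
      · rw [RingHom.comp_apply, MvPolynomial.eval₂Hom_C, MvPolynomial.eval_C]
        exact Polynomial.eval_C
      · rw [RingHom.comp_apply, MvPolynomial.eval₂Hom_X', MvPolynomial.eval_X]
        rcases o with _ | i
        · exact Polynomial.eval_X
        · exact Polynomial.eval_C
    exact RingHom.congr_fun h3 (M j)
  have hp0 : p = 0 := by
    refine Polynomial.eq_zero_of_infinite_isRoot p ?_
    refine Set.infinite_of_injective_forall_mem (f := fun n : ℕ => (n : ℂ)) Nat.cast_injective fun n => ?_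
    show p.eval (n : ℂ) = 0
    rw [hp]
    exact h1 n
  rw [← hp, hp0, Polynomial.eval_zero]

end

end Q207.AF
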