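import Pool.Agent.Q207.AF.Pt

/-!
# Almost all algebraic points, final form
-/

set_option autoImplicit false
set_option linter.unusedSectionVars false

open PowerSeries Module Pool.Agent.Y340.AF Pool.Agent.Y120.GH Pool.Agent.Y916 Pool.Agent.Y118.UL

namespace Q207.AF

section
variable {r n : ℕ}

/-- the degree statement, as an equivalence -/
def Ok2 (h : Fin r → ℚ⟦X⟧) (P : Fin n → MvPolynomial (Option (Fin r)) ℂ) (δ d : ℕ) (α : ℂ) : Prop :=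
  ∀ ℓ : ℂ, Complex.exp ℓ = α → ∀ L : IntermediateField ℚ ℂ, (FiniteDimensional ℚ L ∧ finrank ℚ L ≤ d) →
    ∀ F : MvPolynomial (Fin n) ℂ, (∀ s, F.coeff s ∈ L) → F.totalDegree ≤ δ →
      (MvPolynomial.eval (pv h P α ℓ) F = 0 ↔ ∀ Z ∈ Fb h P α, MvPolynomial.eval Z F = 0)

theorem main2 {T₀ : Polynomial ℤ} {A : Fin r → Fin r → Polynomial ℤ} {h : Fin r → ℚ⟦X⟧} (hG : Af.GFam T₀ A h) (hc : Conn h)
    (m : ℕ) (hm : 1 ≤ m) (n δ d e : ℕ) :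
    ∃ c : ℝ, 0 < c ∧ ∃ C : ℝ, ∀ P : Fin n → MvPolynomial (Option (Fin r)) ℂ, (∀ a, (P a).totalDegree ≤ e) →
      ∃ B : Set ℂ, B.Finite ∧ ∀ T : ℕ, 1 ≤ T → {α : ℂ | Sl.SInt m T α}.Finite ∧
        ({α : ℂ | Sl.SInt m T α ∧ α ∉ B ∧ ¬ Ok2 h P δ d α}.ncard : ℝ) ≤
          C * (T : ℝ) ^ (-c) * ({α : ℂ | Sl.SInt m T α}.ncard : ℝ) := by
  classical
  obtain ⟨c₁, hc₁, h₁⟩ := Sl.many m hm
  obtain ⟨c, hc0, C, hC⟩ := main hG hc m hm n δ d e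
  obtain ⟨K₀, hK₀0, hK₀⟩ := size_pos hG.hsize
  obtain ⟨K, hK⟩ := exists_nat_ge K₀
  have hK1 : (1 : ℝ) ≤ ((K + 1 : ℕ) : ℝ) := by
    push_cast
    have : (0 : ℝ) ≤ K := Nat.cast_nonneg K
    linarith
  have hKh : ∀ i m, |((coeff m (h i) : ℚ) : ℝ)| ≤ ((K + 1 : ℕ) : ℝ) ^ (m + 1) := fun i m =>
    (hK₀ i m).trans (pow_le_pow_left₀ hK₀0 (by push_cast; linarith) _)
  obtain ⟨C₂, hC₂, h₂⟩ := Af.small_tuples m 1 (K + 1) (by omega)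
  refine ⟨min c 1, lt_min hc0 one_pos, |C| + C₂ / c₁ ^ 1, fun P hP => ?_⟩
  obtain ⟨B, hBf, hB⟩ := hC P hP
  refine ⟨B, hBf, fun T hT => ⟨Sl.sint_fin m T, ?_⟩⟩
  have hT1 : (1 : ℝ) ≤ T := by exact_mod_cast hT
  set N : ℝ := ({α : ℂ | Sl.SInt m T α}.ncard : ℝ) with hN
  have hN0 : 0 ≤ N := Nat.cast_nonneg _
  have hfin := Sl.sint_fin m T
  have hsub : {α : ℂ | Sl.SInt m T α ∧ α ∉ B ∧ ¬ Ok2 h P δ d α} ⊆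
      {α : ℂ | Sl.SInt m T α ∧ α ∉ B ∧ ¬ Ok h P δ d α} ∪ {α : ℂ | Sl.SInt m T α ∧ ‖α‖ ≤ ((K + 1 : ℕ) : ℝ)} := by
    rintro α ⟨h3, h4, h5⟩
    by_cases h6 : ‖α‖ ≤ ((K + 1 : ℕ) : ℝ)
    · exact Or.inr ⟨h3, h6⟩
    · refine Or.inl ⟨h3, h4, fun h7 => h5 ?_⟩
      intro ℓ hℓ L hL F hF1 hF2
      exact ⟨fun h8 => h7 ℓ hℓ L hL F hF1 hF2 h8, fun h8 => h8 _ (point_mem hK1 hKh P (not_le.1 h6) ℓ)⟩
  have hsmall : ({α : ℂ | Sl.SInt m T α ∧ ‖α‖ ≤ ((K + 1 : ℕ) : ℝ)}.ncard : ℝ) ≤ C₂ / c₁ ^ 1 * (T : ℝ) ^ (-(1 : ℝ)) * N := by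
    have h4 := (h₂ T hT).trans (Sl.prop_bound hc₁ hC₂ hT (h₁ T hT))
    rw [pow_one ({ξ : ℂ | Sl.SInt m T ξ}.ncard : ℝ)] at h4
    refine le_trans ?_ h4
    rw [← Set.ncard_coe_finset]
    refine Nat.cast_le.2 (Set.ncard_le_ncard_of_injOn (fun α => fun _ : Fin 1 => α) ?_ (fun a _ b _ hab => congrFun hab 0)
      (Finset.finite_toSet _))
    rintro α ⟨hα1, hα2⟩
    rw [Finset.mem_coe, Finset.mem_filter, Fintype.mem_piFinset]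
    exact ⟨fun _ => Sl.mem_NF.2 (Sl.SInt.aint hα1), 0, hα2⟩
  have h3 := (hB T hT).2
  have hcard := (Set.ncard_le_ncard hsub ((hfin.subset fun _ hα => hα.1).union (hfin.subset fun _ hα => hα.1))).trans
    (Set.ncard_union_le _ _)
  have hcard' : ({α : ℂ | Sl.SInt m T α ∧ α ∉ B ∧ ¬ Ok2 h P δ d α}.ncard : ℝ) ≤
      C * (T : ℝ) ^ (-c) * N + C₂ / c₁ ^ 1 * (T : ℝ) ^ (-(1 : ℝ)) * N := by
    refine le_trans (b := (({α : ℂ | Sl.SInt m T α ∧ α ∉ B ∧ ¬ Ok h P δ d α}.ncard : ℝ) +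
      ({α : ℂ | Sl.SInt m T α ∧ ‖α‖ ≤ ((K + 1 : ℕ) : ℝ)}.ncard : ℝ))) ?_ (add_le_add h3 hsmall)
    exact_mod_cast hcard
  refine hcard'.trans ?_
  have h5 : (T : ℝ) ^ (-c) ≤ (T : ℝ) ^ (-(min c 1)) := Real.rpow_le_rpow_of_exponent_le hT1 (neg_le_neg (min_le_left _ _))
  have h6 : (T : ℝ) ^ (-(1 : ℝ)) ≤ (T : ℝ) ^ (-(min c 1)) := Real.rpow_le_rpow_of_exponent_le hT1 (neg_le_neg (min_le_right _ _))
  have h7 : C * (T : ℝ) ^ (-c) * N ≤ |C| * (T : ℝ) ^ (-(min c 1)) * N :=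
    mul_le_mul_of_nonneg_right (mul_le_mul (le_abs_self C) h5 (by positivity) (abs_nonneg C)) hN0
  have h8 : C₂ / c₁ ^ 1 * (T : ℝ) ^ (-(1 : ℝ)) * N ≤ C₂ / c₁ ^ 1 * (T : ℝ) ^ (-(min c 1)) * N :=
    mul_le_mul_of_nonneg_right (mul_le_mul_of_nonneg_left h6 (by positivity)) hN0
  calc _ ≤ |C| * (T : ℝ) ^ (-(min c 1)) * N + C₂ / c₁ ^ 1 * (T : ℝ) ^ (-(min c 1)) * N := add_le_add h7 h8
    _ = _ := by ring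

end

end Q207.AF
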