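import Pool.Agent.Q207.AF.Ev
import Pool.Agent.Y916.Af.All
import Pool.Agent.Y916.Sl.Many

/-!
# Relations of bounded degree between period functions at almost all algebraic points
-/

set_option autoImplicit false
set_option linter.unusedSectionVars false

open PowerSeries Module Pool.Agent.Y340.AF Pool.Agent.Y120.GH Pool.Agent.Y916 Pool.Agent.Y118.UL

namespace Q207.AF

/-- exponents of degree `≤ d` -/
abbrev Jy (n d : ℕ) : Type := {μ : Fin n → Fin (d + 1) // ∑ v, (μ v : ℕ) ≤ d}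

/-- the exponent as a finitely supported function -/
noncomputable def ey {n d : ℕ} (j : Jy n d) : Fin n →₀ ℕ := Finsupp.equivFunOnFinite.symm fun v => (j.1 v : ℕ)

lemma ey_apply {n d : ℕ} (j : Jy n d) (v : Fin n) : ey j v = (j.1 v : ℕ) := rfl

lemma ey_inj {n d : ℕ} : Function.Injective (ey : Jy n d → Fin n →₀ ℕ) := by
  intro j j' h
  apply Subtype.ext
  funext v
  exact Fin.ext (congrFun (congrArg DFunLike.coe h) v)

lemma ey_surj {n d : ℕ} {s : Fin n →₀ ℕ} (h : (s.sum fun _ e => e) ≤ d) : ∃ j : Jy n d, ey j = s := by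
  classical
  rw [Finsupp.sum_fintype _ _ (fun _ => rfl)] at h
  refine ⟨⟨fun v => ⟨s v, Nat.lt_succ_of_le ((Finset.single_le_sum (f := fun v => s v) (fun _ _ => Nat.zero_le _)
    (Finset.mem_univ v)).trans h)⟩, h⟩, ?_⟩
  ext v
  rfl

lemma eq_sum_ey {n d : ℕ} {A : Type} [CommRing A] {F : MvPolynomial (Fin n) A} (h : F.totalDegree ≤ d) :
    F = ∑ j : Jy n d, MvPolynomial.monomial (ey j) (F.coeff (ey j)) := by
  classical
  ext s
  rw [MvPolynomial.coeff_sum]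
  by_cases hs : (s.sum fun _ e => e) ≤ d
  · obtain ⟨j, rfl⟩ := ey_surj hs
    rw [Finset.sum_eq_single j]
    · rw [MvPolynomial.coeff_monomial, if_pos rfl]
    · intro j' _ hne
      rw [MvPolynomial.coeff_monomial, if_neg]
      intro h1
      exact hne (ey_inj h1)
    · intro h1
      exact absurd (Finset.mem_univ _) h1
  · have h0 : F.coeff s = 0 := by
      by_contra h1
      exact hs ((MvPolynomial.le_totalDegree (MvPolynomial.mem_support_iff.2 h1)).trans h)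
    rw [h0]
    symm
    refine Finset.sum_eq_zero fun j _ => ?_
    rw [MvPolynomial.coeff_monomial, if_neg]
    rintro rfl
    refine hs ?_
    rw [Finsupp.sum_fintype _ _ (fun _ => rfl)]
    exact j.2

/-- the value of a polynomial of bounded degree -/
lemma eval_ey {n d : ℕ} {A : Type} [CommRing A] {F : MvPolynomial (Fin n) A} (h : F.totalDegree ≤ d) (φ : A →+* ℂ) (Z : Fin n → ℂ) :
    MvPolynomial.eval₂ φ Z F = ∑ j : Jy n d, φ (F.coeff (ey j)) * ∏ v, Z v ^ (j.1 v : ℕ) := by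
  conv_lhs => rw [eq_sum_ey h]
  rw [MvPolynomial.eval₂_sum]
  refine Finset.sum_congr rfl fun j _ => ?_
  rw [MvPolynomial.eval₂_monomial, Finsupp.prod_fintype _ _ (fun _ => pow_zero _)]
  rfl

section
variable {r n : ℕ}

/-- the field of algebraic numbers -/
abbrev Qa : Type := algebraicClosure ℚ ℂ

/-- the numbers `P_a(ℓ, h(1/α))` -/
noncomputable def pv (h : Fin r → ℚ⟦X⟧) (P : Fin n → MvPolynomial (Option (Fin r)) ℂ) (α ℓ : ℂ) (a : Fin n) : ℂ :=
  MvPolynomial.eval (fun o => o.elim ℓ fun i => ∑' k : ℕ, ((coeff k (h i) : ℚ) : ℂ) * (1 / α) ^ k) (P a)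

/-- a relation between the functions -/
def HI (h : Fin r → ℚ⟦X⟧) (P : Fin n → MvPolynomial (Option (Fin r)) ℂ) (R : MvPolynomial (Fin n) (Polynomial Qa)) : Prop :=
  ∃ τ : ℝ, ∀ s : ℝ, τ < s →
    MvPolynomial.eval₂ (Polynomial.aeval (1 / (s : ℂ)) : Polynomial Qa →ₐ[Qa] ℂ).toRingHom (pv h P s (Real.log s)) R = 0

/-- the fibre of the closure of the graph -/
def Fb (h : Fin r → ℚ⟦X⟧) (P : Fin n → MvPolynomial (Option (Fin r)) ℂ) (α : ℂ) : Set (Fin n → ℂ) :=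
  {Z | ∀ R : MvPolynomial (Fin n) (Polynomial Qa), HI h P R →
    MvPolynomial.eval₂ (Polynomial.aeval (1 / α) : Polynomial Qa →ₐ[Qa] ℂ).toRingHom Z R = 0}

/-- the degree statement -/
def Ok (h : Fin r → ℚ⟦X⟧) (P : Fin n → MvPolynomial (Option (Fin r)) ℂ) (δ d : ℕ) (α : ℂ) : Prop :=
  ∀ ℓ : ℂ, Complex.exp ℓ = α → ∀ L : IntermediateField ℚ ℂ, (FiniteDimensional ℚ L ∧ finrank ℚ L ≤ d) →
    ∀ F : MvPolynomial (Fin n) ℂ, (∀ s, F.coeff s ∈ L) → F.totalDegree ≤ δ → MvPolynomial.eval (pv h P α ℓ) F = 0 →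
      ∀ Z ∈ Fb h P α, MvPolynomial.eval Z F = 0

/-- monomials in the period functions -/
noncomputable def Mj (P : Fin n → MvPolynomial (Option (Fin r)) ℂ) {δ : ℕ} (j : Jy n δ) : MvPolynomial (Option (Fin r)) ℂ :=
  ∏ v, P v ^ (j.1 v : ℕ)

lemma Mj_deg {P : Fin n → MvPolynomial (Option (Fin r)) ℂ} {δ e : ℕ} (hP : ∀ a, (P a).totalDegree ≤ e) (j : Jy n δ) :
    (Mj P j).totalDegree ≤ δ * e := by
  unfold Mj
  refine (MvPolynomial.totalDegree_finsetProd _ _).trans ?_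
  have h1 : ∀ v ∈ Finset.univ, (P v ^ (j.1 v : ℕ)).totalDegree ≤ (j.1 v : ℕ) * e := by
    intro v _
    exact (MvPolynomial.totalDegree_pow _ _).trans (Nat.mul_le_mul_left _ (hP _))
  refine (Finset.sum_le_sum h1).trans ?_
  rw [← Finset.sum_mul]
  exact Nat.mul_le_mul_right _ j.2

/-- exponents in the variables `log`, `h_i` -/
abbrev Ex (r e : ℕ) : Type := Option (Fin r) → Fin (e + 1)

/-- the exponent -/
noncomputable def ee {e : ℕ} (u : Ex r e) : Option (Fin r) →₀ ℕ := Finsupp.equivFunOnFinite.symm fun v => (u v : ℕ)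

/-- the space of the constants -/
noncomputable def VP (P : Fin n → MvPolynomial (Option (Fin r)) ℂ) (δ e : ℕ) : Submodule ℚ ℂ :=
  Submodule.span ℚ (Set.range fun p : Jy n δ × Ex r (δ * e) => (Mj P p.1).coeff (ee p.2))

instance VP_fin (P : Fin n → MvPolynomial (Option (Fin r)) ℂ) (δ e : ℕ) : Module.Finite ℚ (VP P δ e) :=
  FiniteDimensional.span_of_finite ℚ (Set.finite_range _)

lemma VP_rank (P : Fin n → MvPolynomial (Option (Fin r)) ℂ) (δ e : ℕ) :
    finrank ℚ (VP P δ e) ≤ Fintype.card (Jy n δ × Ex r (δ * e)) := by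
  classical
  exact finrank_range_le_card _

lemma VP_mem {P : Fin n → MvPolynomial (Option (Fin r)) ℂ} {δ e : ℕ} (hP : ∀ a, (P a).totalDegree ≤ e) (j : Jy n δ)
    (s : Option (Fin r) →₀ ℕ) : (Mj P j).coeff s ∈ VP P δ e := by
  by_cases hs : (Mj P j).coeff s = 0
  · rw [hs]
    exact Submodule.zero_mem _
  · have h1 : (s.sum fun _ e => e) ≤ δ * e := (MvPolynomial.le_totalDegree (MvPolynomial.mem_support_iff.2 hs)).trans (Mj_deg hP j)
    rw [Finsupp.sum_fintype _ _ (fun _ => rfl)] at h1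
    refine Submodule.subset_span ⟨(j, fun v => ⟨s v, Nat.lt_succ_of_le ((Finset.single_le_sum (f := fun v => s v)
      (fun _ _ => Nat.zero_le _) (Finset.mem_univ v)).trans h1)⟩), ?_⟩
    show (Mj P j).coeff _ = _
    congr 1
    ext v
    rfl

/-- the values of the period functions and of the monomials -/
lemma Mj_eval (P : Fin n → MvPolynomial (Option (Fin r)) ℂ) {δ : ℕ} (y : Option (Fin r) → ℂ) (j : Jy n δ) :
    MvPolynomial.eval y (Mj P j) = ∏ v, (MvPolynomial.eval y (P v)) ^ (j.1 v : ℕ) := by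
  unfold Mj
  rw [map_prod]
  exact Finset.prod_congr rfl fun v _ => map_pow _ _ _

lemma size_pos {h : Fin r → ℚ⟦X⟧} (hh : ∃ C : ℝ, ∀ i m, |((coeff m (h i) : ℚ) : ℝ)| ≤ C ^ (m + 1)) :
    ∃ C : ℝ, 0 ≤ C ∧ ∀ i m, |((coeff m (h i) : ℚ) : ℝ)| ≤ C ^ (m + 1) := by
  obtain ⟨C, hC⟩ := hh
  refine ⟨|C|, abs_nonneg _, fun i m => (hC i m).trans ?_⟩
  rw [← abs_pow]
  exact le_abs_self _

lemma ou_value (h : Fin r → ℚ⟦X⟧) (z : ℂ) (i : Fin r) : ou (cx (h i)) z = ∑' k : ℕ, ((coeff k (h i) : ℚ) : ℂ) * (1 / z) ^ k := by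
  unfold ou inn
  exact tsum_congr fun k => by rw [coeff_cx]

/-- formal relations hold for the functions -/
lemma rel_HI {h : Fin r → ℚ⟦X⟧} (hh : ∃ C : ℝ, ∀ i m, |((coeff m (h i) : ℚ) : ℝ)| ≤ C ^ (m + 1))
    {P : Fin n → MvPolynomial (Option (Fin r)) ℂ} {δ : ℕ} {R : Jy n δ → Polynomial Qa} (hR : Rel h (Mj P) R) :
    HI h P (∑ j, MvPolynomial.monomial (ey j) (R j)) := by
  classical
  obtain ⟨C, hC0, hC⟩ := size_pos hh
  refine ⟨C, fun s hs => ?_⟩
  have hz : C < ‖(s : ℂ)‖ := by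
    rw [Complex.norm_real, Real.norm_eq_abs]
    exact hs.trans_le (le_abs_self _)
  have h1 := rel_holds hR hC0 hC hz ((Real.log s : ℝ) : ℂ)
  rw [MvPolynomial.eval₂_sum, ← h1]
  refine Finset.sum_congr rfl fun j _ => ?_
  rw [MvPolynomial.eval₂_monomial, Finsupp.prod_fintype _ _ (fun _ => pow_zero _), Mj_eval]
  refine congrArg₂ _ ?_ ?_
  · show Polynomial.aeval (1 / (s : ℂ)) (R j) = _
    rw [Polynomial.aeval_def]
  · refine Finset.prod_congr rfl fun v _ => ?_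
    rw [ey_apply]
    unfold pv
    simp only [ou_value]

theorem ok_of {T₀ : Polynomial ℤ} {A : Fin r → Fin r → Polynomial ℤ} {h : Fin r → ℚ⟦X⟧} (hG : Af.GFam T₀ A h) (hc : Conn h)
    {P : Fin n → MvPolynomial (Option (Fin r)) ℂ} (δ d : ℕ) {e : ℕ} (hP : ∀ a, (P a).totalDegree ≤ e) :
    ∃ B : Set ℂ, B.Finite ∧ ∀ α : ℂ, IsAlgebraic ℚ α → α ∉ B → ¬ Af.ExcC h (δ * e) d (VP P δ e) (fun _ : Fin 1 => α) →
      Ok h P δ d α := by
  classical
  have hac0 : IsAlgClosure ℚ (algebraicClosure ℚ ℂ) := algebraicClosure.isAlgClosure ℚ ℂ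
  have hac : IsAlgClosed Qa := hac0.isAlgClosed
  refine ⟨_, (bad_finite (k₀ := Qa) hc (Mj P (δ := δ))).image fun s : Qa => 1 / (s : ℂ), fun α hα hB hexc => ?_⟩
  have hs0 : IsAlgebraic ℚ (1 / α) := by
    rw [one_div]
    exact hα.inv
  set s : Qa := ⟨1 / α, mem_algebraicClosure_iff.2 hs0⟩ with hs
  have hsα : algebraMap Qa ℂ s = 1 / α := rfl
  intro ℓ hℓ L ⟨hL1, hL2⟩ F hFL hF1 hF2 Z hZ
  have hLalg : ∀ x : L, IsAlgebraic ℚ (x : ℂ) := fun x => (Algebra.IsAlgebraic.isAlgebraic (R := ℚ) x).algebraMap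
  let Fk : Jy n δ → Qa := fun j => ⟨F.coeff (ey j), mem_algebraicClosure_iff.2 (hLalg ⟨_, hFL _⟩)⟩
  have hFk : ∀ j, algebraMap Qa ℂ (Fk j) = F.coeff (ey j) := fun j => rfl
  let P' : MvPolynomial (Fin 1 × Option (Fin r)) ℂ :=
    ∑ j, MvPolynomial.C (F.coeff (ey j)) * MvPolynomial.rename (fun o => ((0 : Fin 1), o)) (Mj P (δ := δ) j)
  have hP'ev : ∀ y : Fin 1 × Option (Fin r) → ℂ, MvPolynomial.aeval y P' =
      ∑ j, F.coeff (ey j) * MvPolynomial.eval (fun o => y (0, o)) (Mj P (δ := δ) j) := by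
    intro y
    simp only [P', map_sum, map_mul]
    refine Finset.sum_congr rfl fun j _ => ?_
    rw [MvPolynomial.aeval_C, MvPolynomial.aeval_rename]
    rfl
  have hP'deg : P'.totalDegree ≤ δ * e := by
    refine (MvPolynomial.totalDegree_finsetSum _ _).trans (Finset.sup_le fun j _ => ?_)
    refine (MvPolynomial.totalDegree_mul _ _).trans ?_
    rw [MvPolynomial.totalDegree_C, zero_add]
    exact (MvPolynomial.totalDegree_rename_le _ _).trans (Mj_deg hP j)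
  have hP'co : ∀ t, P'.coeff t ∈ Submodule.span L ((VP P δ e : Submodule ℚ ℂ) : Set ℂ) := by
    intro t
    simp only [P', MvPolynomial.coeff_sum, MvPolynomial.coeff_C_mul]
    refine Submodule.sum_mem _ fun j _ => ?_
    have h1 : (MvPolynomial.rename (fun o => ((0 : Fin 1), o)) (Mj P (δ := δ) j)).coeff t ∈ VP P δ e := by
      by_cases ht : ∃ u : Option (Fin r) →₀ ℕ, t = Finsupp.mapDomain (fun o => ((0 : Fin 1), o)) u
      · obtain ⟨u, rfl⟩ := ht
        rw [MvPolynomial.coeff_rename_mapDomain _ (fun a b hab => (Prod.mk.inj hab).2)]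
        exact VP_mem hP j u
      · rw [MvPolynomial.coeff_rename_eq_zero _ _ _ fun u hu => absurd ⟨u, hu.symm⟩ ht]
        exact Submodule.zero_mem _
    have h2 : F.coeff (ey j) * (MvPolynomial.rename (fun o => ((0 : Fin 1), o)) (Mj P (δ := δ) j)).coeff t =
        (⟨F.coeff (ey j), hFL _⟩ : L) • (MvPolynomial.rename (fun o => ((0 : Fin 1), o)) (Mj P (δ := δ) j)).coeff t := by
      rw [Algebra.smul_def]
      rfl
    rw [h2]
    exact Submodule.smul_mem _ _ (Submodule.subset_span h1)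
  -- the value of `F`
  have hFev : ∀ Z : Fin n → ℂ, MvPolynomial.eval Z F = ∑ j : Jy n δ, F.coeff (ey j) * ∏ v, Z v ^ (j.1 v : ℕ) := fun Z =>
    eval_ey hF1 (RingHom.id ℂ) Z
  have h0 : MvPolynomial.aeval (Af.ptc h (fun _ : Fin 1 => α) fun _ => ℓ) P' = 0 := by
    rw [hP'ev, ← hF2, hFev]
    refine Finset.sum_congr rfl fun j _ => ?_
    rw [Mj_eval]
    rfl
  have h1 : ∀ y ∈ Af.Fib h fun _ : Fin 1 => 1 / α, MvPolynomial.aeval y P' = 0 := by
    intro y hy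
    by_contra h2
    exact hexc ⟨fun _ => ℓ, fun _ => hℓ, L, hL1, hL2, P', hP'deg, hP'co, h0, y, hy, h2⟩
  have h2 : Fk ∈ Submodule.span Qa {v : Jy n δ → Qa | ∃ R : Jy n δ → Polynomial Qa, Rel h (Mj P) R ∧ v = fun j => (R j).eval s} := by
    by_contra h3
    refine hB ⟨s, ⟨Fk, fun l y hy => ?_, h3⟩, ?_⟩
    · have h4 := h1 (fun a => a.2.elim (l : ℂ) fun i => algebraMap Qa ℂ (y i)) fun _ => hy
      rw [hP'ev] at h4
      exact h4
    · show 1 / (1 / α) = α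
      rw [one_div_one_div]
  rw [hFev]
  have h3 : ∀ v ∈ Submodule.span Qa {v : Jy n δ → Qa | ∃ R : Jy n δ → Polynomial Qa, Rel h (Mj P) R ∧ v = fun j => (R j).eval s},
      ∑ j : Jy n δ, algebraMap Qa ℂ (v j) * ∏ a, Z a ^ (j.1 a : ℕ) = 0 := by
    intro v hv
    induction hv using Submodule.span_induction with
    | mem v hv =>
      obtain ⟨R, hR, rfl⟩ := hv
      have h4 := hZ _ (rel_HI hG.hsize hR)
      rw [MvPolynomial.eval₂_sum] at h4
      rw [← h4]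
      refine Finset.sum_congr rfl fun j _ => ?_
      rw [MvPolynomial.eval₂_monomial, Finsupp.prod_fintype _ _ (fun _ => pow_zero _)]
      congr 1
      show algebraMap Qa ℂ ((R j).eval s) = Polynomial.aeval (1 / α) (R j)
      rw [← hsα, Polynomial.aeval_algebraMap_apply]
      rfl
    | zero =>
      exact Finset.sum_eq_zero fun j _ => by rw [Pi.zero_apply, map_zero, zero_mul]
    | add v w _ _ hv hw =>
      have h5 : ∑ j : Jy n δ, algebraMap Qa ℂ ((v + w) j) * ∏ a, Z a ^ (j.1 a : ℕ) =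
          (∑ j : Jy n δ, algebraMap Qa ℂ (v j) * ∏ a, Z a ^ (j.1 a : ℕ)) +
            ∑ j : Jy n δ, algebraMap Qa ℂ (w j) * ∏ a, Z a ^ (j.1 a : ℕ) := by
        rw [← Finset.sum_add_distrib]
        exact Finset.sum_congr rfl fun j _ => by rw [Pi.add_apply, map_add, add_mul]
      rw [h5, hv, hw, add_zero]
    | smul c v _ hv =>
      rw [← mul_zero (algebraMap Qa ℂ c), ← hv, Finset.mul_sum]
      exact Finset.sum_congr rfl fun j _ => by rw [Pi.smul_apply, smul_eq_mul, map_mul, mul_assoc]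
  exact h3 Fk h2

theorem main {T₀ : Polynomial ℤ} {A : Fin r → Fin r → Polynomial ℤ} {h : Fin r → ℚ⟦X⟧} (hG : Af.GFam T₀ A h) (hc : Conn h)
    (m : ℕ) (hm : 1 ≤ m) (n δ d e : ℕ) :
    ∃ c : ℝ, 0 < c ∧ ∃ C : ℝ, ∀ P : Fin n → MvPolynomial (Option (Fin r)) ℂ, (∀ a, (P a).totalDegree ≤ e) →
      ∃ B : Set ℂ, B.Finite ∧ ∀ T : ℕ, 1 ≤ T → {α : ℂ | Sl.SInt m T α}.Finite ∧
        ({α : ℂ | Sl.SInt m T α ∧ α ∉ B ∧ ¬ Ok h P δ d α}.ncard : ℝ) ≤
          C * (T : ℝ) ^ (-c) * ({α : ℂ | Sl.SInt m T α}.ncard : ℝ) := by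
  classical
  obtain ⟨c₁, hc₁, h₁⟩ := Sl.many m hm
  obtain ⟨c, hc0, C, hC0, h₃⟩ := Af.tupC Af.nr Af.t_br2 Af.conn hG hc 1 m (δ * e) d (Fintype.card (Jy n δ × Ex r (δ * e)))
  refine ⟨c, hc0, C / c₁ ^ 1, fun P hP => ?_⟩
  obtain ⟨B, hBf, hB⟩ := ok_of hG hc δ d hP
  refine ⟨B, hBf, fun T hT => ⟨Sl.sint_fin m T, ?_⟩⟩
  obtain ⟨hf, hle⟩ := h₃ (VP P δ e) inferInstance (VP_rank P δ e) T hT
  have h4 := hle.trans (Sl.prop_bound hc₁ hC0 hT (h₁ T hT))
  rw [pow_one, pow_one] at h4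
  rw [pow_one]
  refine le_trans ?_ h4
  refine Nat.cast_le.2 ?_
  refine Set.ncard_le_ncard_of_injOn (fun α => fun _ : Fin 1 => α) ?_ (fun a _ b _ hab => congrFun hab 0) hf
  rintro α ⟨hα1, hα2, hα3⟩
  refine ⟨fun _ => Sl.SInt.aint hα1, ?_⟩
  by_contra h5
  refine hα3 (hB α ?_ hα2 h5)
  exact (hα1.1.tower_top (A := ℚ)).isAlgebraic

end

end Q207.AF
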