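import Pool.Agent.Q207.AF.Mz

/-!
# Moving relations by symmetries of the functional relations, several fibres
-/

set_option autoImplicit false
set_option linter.unusedSectionVars false

open PowerSeries Pool.Agent.Y340.AF Pool.Agent.Y120.GH Pool.Agent.Y118.UL Filter

namespace Q207.AF

lemma deg_subst {σ τ : Type} {F : MvPolynomial σ ℂ} {g : σ → MvPolynomial τ ℂ} (hg : ∀ v, (g v).totalDegree ≤ 1) :
    (MvPolynomial.eval₂ MvPolynomial.C g F).totalDegree ≤ F.totalDegree := by
  classical
  rw [MvPolynomial.eval₂_eq]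
  refine (MvPolynomial.totalDegree_finsetSum _ _).trans (Finset.sup_le fun s hs => ?_)
  refine (MvPolynomial.totalDegree_mul _ _).trans ?_
  rw [MvPolynomial.totalDegree_C, zero_add]
  refine (MvPolynomial.totalDegree_finsetProd _ _).trans ?_
  refine le_trans (Finset.sum_le_sum fun v _ => ?_) (MvPolynomial.le_totalDegree hs)
  exact (MvPolynomial.totalDegree_pow _ _).trans ((Nat.mul_le_mul_left _ (hg v)).trans (le_of_eq (mul_one _)))

section
variable {k r : ℕ} {ν : Fin k → Type} [∀ i, Fintype (ν i)] [∀ i, DecidableEq (ν i)]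

theorem mv_all {h : Fin r → ℚ⟦X⟧} (hc : Conn h) {C : ℝ} (hC : 1 ≤ C)
    (hh : ∀ i m, |((coeff m (h i) : ℚ) : ℝ)| ≤ C ^ (m + 1)) (hne : ∀ α : ℂ, C < ‖α‖ → (VV h (1 / α)).Nonempty)
    (P : ∀ i, ν i → MvPolynomial (Option (Fin r)) ℂ) (δ : ℕ) :
    ∃ B : Set ℂ, B.Finite ∧ ∀ α : Fin k → ℂ, (∀ i, α i ∉ B) → (∀ i, C < ‖α i‖) →
      ∀ F : MvPolynomial (Σ i, ν i) ℂ, F.totalDegree ≤ δ →
      (∀ (l : Fin k → ℂ) (y : Fin k → Fin r → ℂ), (∀ i, y i ∈ VV h (1 / α i)) →
        MvPolynomial.eval (fun v => MvPolynomial.eval (fun o => o.elim (l v.1) (y v.1)) (P v.1 v.2)) F = 0) →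
      ∀ P' : ∀ i, ν i → MvPolynomial (Option (Fin r)) ℂ, (∀ i, SatA h (P i) (P' i)) → ∀ ℓ : Fin k → ℂ,
        MvPolynomial.eval (fun v => pw h (P' v.1) (α v.1) (ℓ v.1) v.2) F = 0 := by
  classical
  choose B hBf hB using fun i => one_bad hc hC hh (P i) δ
  refine ⟨⋃ i, B i, Set.finite_iUnion hBf, fun α hαB hαC F hF hvan P' hP' ℓ => ?_⟩
  have key : ∀ S : Finset (Fin k), ∀ (l : Fin k → ℂ) (y : Fin k → Fin r → ℂ), (∀ i, y i ∈ VV h (1 / α i)) →
      MvPolynomial.eval (fun v : Σ i, ν i => if v.1 ∈ S then pw h (P' v.1) (α v.1) (ℓ v.1) v.2 else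
        MvPolynomial.eval (fun o => o.elim (l v.1) (y v.1)) (P v.1 v.2)) F = 0 := by
    intro S
    induction S using Finset.induction_on with
    | empty =>
      intro l y hy
      rw [← hvan l y hy]
      congr 2
    | insert a S ha ih =>
      intro l y hy
      let w : (Σ i, ν i) → ℂ := fun v => if v.1 ∈ S then pw h (P' v.1) (α v.1) (ℓ v.1) v.2 else
        MvPolynomial.eval (fun o => o.elim (l v.1) (y v.1)) (P v.1 v.2)
      let g : (Σ i, ν i) → MvPolynomial (ν a) ℂ := fun v => if hv : v.1 = a then MvPolynomial.X (hv ▸ v.2) else MvPolynomial.C (w v)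
      have hg : ∀ v, (g v).totalDegree ≤ 1 := by
        intro v
        simp only [g]
        split_ifs
        · exact MvPolynomial.totalDegree_X _ |>.le
        · rw [MvPolynomial.totalDegree_C]
          exact Nat.zero_le _
      let G : MvPolynomial (ν a) ℂ := MvPolynomial.eval₂ MvPolynomial.C g F
      have hGdeg : G.totalDegree ≤ δ := (deg_subst hg).trans hF
      have hGev : ∀ z : ν a → ℂ, MvPolynomial.eval z G =
          MvPolynomial.eval (fun v : Σ i, ν i => if hv : v.1 = a then z (hv ▸ v.2) else w v) F := by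
        intro z
        have h1 : (MvPolynomial.eval z).comp (MvPolynomial.eval₂Hom MvPolynomial.C g) =
            MvPolynomial.eval (fun v : Σ i, ν i => if hv : v.1 = a then z (hv ▸ v.2) else w v) := by
          refine MvPolynomial.ringHom_ext (fun c => ?_) fun v => ?_
          · rw [RingHom.comp_apply, MvPolynomial.eval₂Hom_C, MvPolynomial.eval_C, MvPolynomial.eval_C]
          · rw [RingHom.comp_apply, MvPolynomial.eval₂Hom_X', MvPolynomial.eval_X]
            simp only [g]
            split_ifs
            · exact MvPolynomial.eval_X _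
            · exact MvPolynomial.eval_C _
        exact RingHom.congr_fun h1 F
      have hvanG : ∀ (l' : ℂ) (y' : Fin r → ℂ), y' ∈ VV h (1 / α a) →
          MvPolynomial.eval (fun v => MvPolynomial.eval (fun o => o.elim l' y') (P a v)) G = 0 := by
        intro l' y' hy'
        rw [hGev]
        have h1 := ih (Function.update l a l') (Function.update y a y') (fun i => by
          by_cases hi : i = a
          · subst hi
            rw [Function.update_self]
            exact hy'
          · rw [Function.update_of_ne hi]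
            exact hy i)
        rw [← h1]
        congr 2
        funext v
        obtain ⟨i, v⟩ := v
        by_cases hi : i = a
        · subst hi
          simp only [dif_pos]
          rw [if_neg ha, Function.update_self, Function.update_self]
        · simp only [w]
          rw [dif_neg hi, Function.update_of_ne hi, Function.update_of_ne hi]
      have h2 := hB a (α a) (fun h3 => hαB a (Set.mem_iUnion.2 ⟨a, h3⟩)) (hαC a) G hGdeg hvanG (P' a) (hP' a) (ℓ a)
      rw [hGev] at h2
      rw [← h2]
      congr 2
      funext v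
      obtain ⟨i, v⟩ := v
      by_cases hi : i = a
      · subst hi
        simp only [dif_pos]
        rw [if_pos (Finset.mem_insert_self _ _)]
      · simp only [w]
        rw [dif_neg hi]
        by_cases hiS : i ∈ S
        · rw [if_pos (Finset.mem_insert_of_mem hiS), if_pos hiS]
        · rw [if_neg hiS, if_neg (fun h3 => (Finset.mem_insert.1 h3).elim hi hiS)]
  choose y hy using fun i => hne (α i) (hαC i)
  have h1 := key Finset.univ (fun _ => 0) y hy
  rw [← h1]
  congr 2
  funext v
  rw [if_pos (Finset.mem_univ _)]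

end

end Q207.AF
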