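import Pool.Agent.Q207.AF.Ac

/-!
# Moving relations by symmetries of the functional relations, one fibre
-/

set_option autoImplicit false
set_option linter.unusedSectionVars false

open PowerSeries Pool.Agent.Y340.AF Pool.Agent.Y120.GH Pool.Agent.Y118.UL Filter

namespace Q207.AF

/-- exponents of degree `≤ d` -/
abbrev Jz (ν : Type) [Fintype ν] (d : ℕ) : Type := {μ : ν → Fin (d + 1) // ∑ v, (μ v : ℕ) ≤ d}

section
variable {ν : Type} [Fintype ν]

/-- the exponent as a finitely supported function -/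
noncomputable def ez {d : ℕ} (j : Jz ν d) : ν →₀ ℕ := Finsupp.equivFunOnFinite.symm fun v => (j.1 v : ℕ)

lemma ez_apply {d : ℕ} (j : Jz ν d) (v : ν) : ez j v = (j.1 v : ℕ) := rfl

lemma ez_inj {d : ℕ} : Function.Injective (ez : Jz ν d → ν →₀ ℕ) := by
  intro j j' h
  apply Subtype.ext
  funext v
  exact Fin.ext (congrFun (congrArg DFunLike.coe h) v)

lemma ez_surj {d : ℕ} {s : ν →₀ ℕ} (h : (s.sum fun _ e => e) ≤ d) : ∃ j : Jz ν d, ez j = s := by
  classical
  rw [Finsupp.sum_fintype _ _ (fun _ => rfl)] at h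
  refine ⟨⟨fun v => ⟨s v, Nat.lt_succ_of_le ((Finset.single_le_sum (f := fun v => s v) (fun _ _ => Nat.zero_le _)
    (Finset.mem_univ v)).trans h)⟩, h⟩, ?_⟩
  ext v
  rfl

lemma eq_sum_ez [DecidableEq ν] {d : ℕ} {A : Type} [CommRing A] {F : MvPolynomial ν A} (h : F.totalDegree ≤ d) :
    F = ∑ j : Jz ν d, MvPolynomial.monomial (ez j) (F.coeff (ez j)) := by
  classical
  ext s
  rw [MvPolynomial.coeff_sum]
  by_cases hs : (s.sum fun _ e => e) ≤ d
  · obtain ⟨j, rfl⟩ := ez_surj hs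
    rw [Finset.sum_eq_single j]
    · rw [MvPolynomial.coeff_monomial, if_pos rfl]
    · intro j' _ hne
      rw [MvPolynomial.coeff_monomial, if_neg]
      intro h1
      exact hne (ez_inj h1)
    · intro h1
      exact absurd (Finset.mem_univ _) h1
  · have h0 : F.coeff s = 0 := by
      by_contra h1
      exact hs ((MvPolynomial.le_totalDegree (MvPolynomial.mem_support_iff.2 h1)).trans h)
    rw [h0]
    symm
    refine Finset.sum_eq_zero fun j _ => ?_
    rw [MvPolynomial.coeff_monomial, if_neg]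
    rintro rfl
    refine hs ?_
    rw [Finsupp.sum_fintype _ _ (fun _ => rfl)]
    exact j.2

/-- the value of a polynomial of bounded degree -/
lemma eval_ez [DecidableEq ν] {d : ℕ} {A B : Type} [CommRing A] [CommRing B] {F : MvPolynomial ν A} (h : F.totalDegree ≤ d) (φ : A →+* B)
    (Z : ν → B) : MvPolynomial.eval₂ φ Z F = ∑ j : Jz ν d, φ (F.coeff (ez j)) * ∏ v, Z v ^ (j.1 v : ℕ) := by
  conv_lhs => rw [eq_sum_ez h]
  rw [MvPolynomial.eval₂_sum]
  refine Finset.sum_congr rfl fun j _ => ?_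
  rw [MvPolynomial.eval₂_monomial, Finsupp.prod_fintype _ _ (fun _ => pow_zero _)]
  rfl

variable {r : ℕ} {σ : Type}

/-- monomials in the period functions -/
noncomputable def Mz (P : ν → MvPolynomial σ ℂ) {δ : ℕ} (j : Jz ν δ) : MvPolynomial σ ℂ :=
  ∏ v, P v ^ (j.1 v : ℕ)

lemma Mz_deg {P : ν → MvPolynomial σ ℂ} {δ e : ℕ} (hP : ∀ a, (P a).totalDegree ≤ e) (j : Jz ν δ) :
    (Mz P j).totalDegree ≤ δ * e := by
  unfold Mz
  refine (MvPolynomial.totalDegree_finsetProd _ _).trans ?_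
  have h1 : ∀ v ∈ Finset.univ, (P v ^ (j.1 v : ℕ)).totalDegree ≤ (j.1 v : ℕ) * e := by
    intro v _
    exact (MvPolynomial.totalDegree_pow _ _).trans (Nat.mul_le_mul_left _ (hP _))
  refine (Finset.sum_le_sum h1).trans ?_
  rw [← Finset.sum_mul]
  exact Nat.mul_le_mul_right _ j.2

lemma Mz_eval (P : ν → MvPolynomial σ ℂ) {δ : ℕ} (y : σ → ℂ) (j : Jz ν δ) :
    MvPolynomial.eval y (Mz P j) = ∏ v, (MvPolynomial.eval y (P v)) ^ (j.1 v : ℕ) := by
  unfold Mz
  rw [map_prod]
  exact Finset.prod_congr rfl fun v _ => map_pow _ _ _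

/-- `P'` satisfies all relations of `P` -/
def SatA (h : Fin r → ℚ⟦X⟧) (P P' : ν → MvPolynomial (Option (Fin r)) ℂ) : Prop :=
  ∀ R : MvPolynomial ν (Polynomial ℂ),
    (∀ᶠ s : ℝ in atTop, MvPolynomial.eval₂ (Polynomial.evalRingHom (1 / (s : ℂ))) (pw h P s (Real.log s)) R = 0) →
    ∀ᶠ s : ℝ in atTop, MvPolynomial.eval₂ (Polynomial.evalRingHom (1 / (s : ℂ))) (pw h P' s (Real.log s)) R = 0

/-- one fibre: polynomials with complex coefficients which vanish on the fibre of `h` and the line of the logarithm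
vanish at the values of all `P'` which satisfy the functional relations -/
theorem one_bad [DecidableEq ν] {h : Fin r → ℚ⟦X⟧} (hc : Conn h) {C : ℝ} (hC : 1 ≤ C)
    (hh : ∀ i m, |((coeff m (h i) : ℚ) : ℝ)| ≤ C ^ (m + 1)) (P : ν → MvPolynomial (Option (Fin r)) ℂ) (δ : ℕ) :
    ∃ B : Set ℂ, B.Finite ∧ ∀ α : ℂ, α ∉ B → C < ‖α‖ → ∀ G : MvPolynomial ν ℂ, G.totalDegree ≤ δ →
      (∀ (l : ℂ) (y : Fin r → ℂ), y ∈ VV h (1 / α) →
        MvPolynomial.eval (fun v => MvPolynomial.eval (fun o => o.elim l y) (P v)) G = 0) →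
      ∀ P' : ν → MvPolynomial (Option (Fin r)) ℂ, SatA h P P' → ∀ ℓ : ℂ, MvPolynomial.eval (pw h P' α ℓ) G = 0 := by
  classical
  refine ⟨_, (bad_finite (k₀ := ℂ) hc (Mz P (δ := δ))).image fun s : ℂ => 1 / s, fun α hB hα G hG hvan P' hP' ℓ => ?_⟩
  have hGev : ∀ Z : ν → ℂ, MvPolynomial.eval Z G = ∑ j : Jz ν δ, G.coeff (ez j) * ∏ v, Z v ^ (j.1 v : ℕ) := fun Z =>
    eval_ez hG (RingHom.id ℂ) Z
  have h2 : (fun j : Jz ν δ => G.coeff (ez j)) ∈ Submodule.span ℂ {v : Jz ν δ → ℂ | ∃ R : Jz ν δ → Polynomial ℂ,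
      Rel h (Mz P) R ∧ v = fun j => (R j).eval (1 / α)} := by
    by_contra h3
    refine hB ⟨1 / α, ⟨fun j : Jz ν δ => G.coeff (ez j), fun l y hy => ?_, h3⟩, ?_⟩
    · have h4 := hvan (l : ℂ) y hy
      rw [hGev] at h4
      rw [← h4]
      refine Finset.sum_congr rfl fun j _ => ?_
      rw [Mz_eval]
      rfl
    · show 1 / (1 / α) = α
      rw [one_div_one_div]
  rw [hGev]
  have h3 : ∀ v ∈ Submodule.span ℂ {v : Jz ν δ → ℂ | ∃ R : Jz ν δ → Polynomial ℂ, Rel h (Mz P) R ∧ v = fun j => (R j).eval (1 / α)},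
      ∑ j : Jz ν δ, v j * ∏ a, pw h P' α ℓ a ^ (j.1 a : ℕ) = 0 := by
    intro v hv
    induction hv using Submodule.span_induction with
    | mem v hv =>
      obtain ⟨R, hR, rfl⟩ := hv
      have hev : ∀ (z : ℂ) (Z : ν → ℂ), MvPolynomial.eval₂ (Polynomial.evalRingHom (1 / z)) Z
          (∑ j, MvPolynomial.monomial (ez j) (R j)) = ∑ j : Jz ν δ, (R j).eval (1 / z) * ∏ a, Z a ^ (j.1 a : ℕ) := by
        intro z Z
        rw [MvPolynomial.eval₂_sum]
        refine Finset.sum_congr rfl fun j _ => ?_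
        rw [MvPolynomial.eval₂_monomial, Finsupp.prod_fintype _ _ (fun _ => pow_zero _)]
        rfl
      have h4 : ∀ᶠ s : ℝ in atTop, MvPolynomial.eval₂ (Polynomial.evalRingHom (1 / (s : ℂ))) (pw h P s (Real.log s))
          (∑ j, MvPolynomial.monomial (ez j) (R j)) = 0 := by
        filter_upwards [eventually_gt_atTop C] with s hs
        have hz : C < ‖(s : ℂ)‖ := by
          rw [Complex.norm_real, Real.norm_eq_abs]
          exact hs.trans_le (le_abs_self _)
        have h5 := rel_holds hR (by linarith) hh hz ((Real.log s : ℝ) : ℂ)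
        rw [hev, ← h5]
        refine Finset.sum_congr rfl fun j _ => ?_
        rw [Mz_eval]
        refine congrArg₂ _ ?_ ?_
        · rw [Polynomial.eval₂_eq_eval_map, Algebra.algebraMap_self, Polynomial.map_id]
        · refine Finset.prod_congr rfl fun v _ => ?_
          unfold pw
          simp only [ou_value']
      have h6 := point_all hC hh P' _ (hP' _ h4) hα ℓ
      rw [hev] at h6
      exact h6
    | zero => exact Finset.sum_eq_zero fun j _ => by rw [Pi.zero_apply, zero_mul]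
    | add v w _ _ hv hw =>
      have h5 : ∑ j : Jz ν δ, (v + w) j * ∏ a, pw h P' α ℓ a ^ (j.1 a : ℕ) =
          (∑ j : Jz ν δ, v j * ∏ a, pw h P' α ℓ a ^ (j.1 a : ℕ)) + ∑ j : Jz ν δ, w j * ∏ a, pw h P' α ℓ a ^ (j.1 a : ℕ) := by
        rw [← Finset.sum_add_distrib]
        exact Finset.sum_congr rfl fun j _ => by rw [Pi.add_apply, add_mul]
      rw [h5, hv, hw, add_zero]
    | smul c v _ hv =>
      rw [← mul_zero c, ← hv, Finset.mul_sum]
      exact Finset.sum_congr rfl fun j _ => by rw [Pi.smul_apply, smul_eq_mul, mul_assoc]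
  exact h3 _ h2

end

end Q207.AF
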