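import Pool.Agent.Q207.AF.Ck
import Pool.Agent.Y123.GN.E7

/-!
# Subtorsors at almost all algebraic tuples
-/

set_option autoImplicit false
set_option linter.unusedSectionVars false

open Matrix Module PowerSeries Filter

namespace Q207.AF

open Pool.Agent.TH127.PT Pool.Agent.Y123.ST Pool.Agent.Y123.SR Pool.Agent.Y113 Pool.Agent.Y113.GG Pool.Agent.Y120.R
  Pool.Agent.Y123.GN Pool.Agent.Y916

section
variable {B₀ : Type} [Fintype B₀] [DecidableEq B₀] {k : ℕ} {n : Fin k → ℕ}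

/-- the conclusion: all subtorsors over all number fields of degree at most `D` -/
def GoodZ (D : ℕ) (C₀ : Matrix B₀ B₀ ℂ) (𝒢 : ∀ i, Subgroup (Matrix (Fin (n i)) (Fin (n i)) ℂ)ˣ)
    (Z : ∀ i, Matrix (Fin (n i)) (Fin (n i)) ℂ) : Prop :=
  ∀ K : Subfield ℂ, FiniteDimensional ℚ K → finrank ℚ K ≤ D → ∀ T : Set (Matrix (IG B₀ n) (IG B₀ n) ℂ),
    IsSubtorsor K T → EG C₀ Z ∈ T → ∀ g : ∀ i, (Matrix (Fin (n i)) (Fin (n i)) ℂ)ˣ,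
      (∀ i, g i ∈ ⁅Ug (𝒢 i), Ug (𝒢 i)⁆) →
        ∀ x ∈ T, EG 1 (fun i => (g i : Matrix (Fin (n i)) (Fin (n i)) ℂ)) * x ∈ T

/-- **stability at one tuple** -/
theorem stabZ (m D : ℕ) : ∃ d : ℕ, 1 + m ≤ d ∧ ∀ (B₀ : Type) [Fintype B₀] [DecidableEq B₀] (k : ℕ) (n : Fin k → ℕ),
    Fintype.card (IG B₀ n) ≤ m → ∀ (𝒢 : ∀ i, Subgroup (Matrix (Fin (n i)) (Fin (n i)) ℂ)ˣ)
    (Z : ∀ i, Matrix (Fin (n i)) (Fin (n i)) ℂ) (C₀ : Matrix B₀ B₀ ℂ),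
    (∀ g : ∀ i, (Matrix (Fin (n i)) (Fin (n i)) ℂ)ˣ, (∀ i, g i ∈ 𝒢 i) →
      Rl ⊥ d (EG C₀ Z) (EG 1 (fun i => (g i : Matrix (Fin (n i)) (Fin (n i)) ℂ)) * EG C₀ Z)) → GoodZ D C₀ 𝒢 Z := by
  obtain ⟨d, hd1, hd⟩ := comm_all m D
  refine ⟨d, hd1, ?_⟩
  intro B₀ _ _ k n hcard 𝒢 Z C₀ hrel K hKf hKD T hT hcT g hg
  have hrelG : ∀ g ∈ Ug (Pool.Agent.Y123.GN.GG B₀ 𝒢), Rl ⊥ d (EG C₀ Z) (g * EG C₀ Z) := by
    intro g hg
    obtain ⟨g', hg', rfl⟩ := Ug_le _ hg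
    exact hrel g' fun i => hg' i (Set.mem_univ i)
  obtain ⟨hcomm, -, -⟩ := hd (IG B₀ n) hcard _ (Pool.Agent.Y123.GN.GG B₀ 𝒢) hrelG K hKf hKD T hT hcT
  refine all_blocksG fun i => ?_
  refine hcomm _ ?_
  have h1 : em B₀ i (g i) ∈ (⁅Ug (𝒢 i), Ug (𝒢 i)⁆ : Subgroup _).map (em B₀ i) := ⟨g i, hg i, rfl⟩
  rw [Subgroup.map_commutator] at h1
  exact Subgroup.commutator_mono em_Ug em_Ug h1

end

section
variable {k r : ℕ} {n : Fin k → ℕ}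

/-- the value of the period matrix for the logarithm `ℓ` of `α` -/
noncomputable def zM {n : ℕ} (h : Fin r → ℚ⟦X⟧) (P : Fin n → Fin n → MvPolynomial (Option (Fin r)) ℂ) (α ℓ : ℂ) :
    Matrix (Fin n) (Fin n) ℂ := Matrix.of fun a b => pw h (fun v : Fin n × Fin n => P v.1 v.2) α ℓ (a, b)

lemma pw_real {ν : Type} (h : Fin r → ℚ⟦X⟧) (P : ν → MvPolynomial (Option (Fin r)) ℂ) (s : ℝ) (v : ν) :
    pw h P s (Real.log s) v = MvPolynomial.aeval (p1 h s) (P v) := by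
  unfold pw
  rw [MvPolynomial.aeval_eq_eval]
  congr 2
  funext o
  rcases o with _ | l
  · rfl
  · show ∑' k : ℕ, ((coeff k (h l) : ℚ) : ℂ) * (1 / (s : ℂ)) ^ k = ((ev s (h l) : ℝ) : ℂ)
    rw [← ou_value', Pool.Agent.Y120.GH.ou_ev]

lemma satA_of {n : ℕ} {h : Fin r → ℚ⟦X⟧} {P : Fin n → Fin n → MvPolynomial (Option (Fin r)) ℂ} {g : Matrix (Fin n) (Fin n) ℂ}
    (hg : Prs h P g) : SatA h (fun v : Fin n × Fin n => P v.1 v.2) (tl P g) := by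
  intro R hR
  have h1 : ∀ᶠ s : ℝ in atTop, rel1 R s (pM h P s) = 0 := by
    filter_upwards [hR] with s hs
    rw [← hs]
    unfold rel1
    congr 1
    funext v
    exact (pw_real h (fun v : Fin n × Fin n => P v.1 v.2) s v).symm
  filter_upwards [hg R h1] with s hs
  rw [← hs]
  unfold rel1
  congr 1
  funext v
  rw [pw_real, tl_eval]

lemma zM_mul {n : ℕ} (h : Fin r → ℚ⟦X⟧) (P : Fin n → Fin n → MvPolynomial (Option (Fin r)) ℂ) (g : Matrix (Fin n) (Fin n) ℂ)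
    (α ℓ : ℂ) (v : Fin n × Fin n) : pw h (tl P g) α ℓ v = (g * zM h P α ℓ) v.1 v.2 := by
  unfold pw tl
  rw [map_sum, Matrix.mul_apply]
  refine Finset.sum_congr rfl fun l _ => ?_
  rw [map_mul, MvPolynomial.eval_C]
  rfl

/-- **almost all tuples of algebraic integers** -/
theorem tors_alg {T₀ : Polynomial ℤ} {A : Fin r → Fin r → Polynomial ℤ} {h : Fin r → ℚ⟦X⟧} (hG : Af.GFam T₀ A h)
    (hc : Pool.Agent.Y118.UL.Conn h) (m : ℕ) (hm : 1 ≤ m) (D e q : ℕ) :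
    ∃ c : ℝ, 0 < c ∧ ∃ C : ℝ, 0 ≤ C ∧ ∀ P : ∀ i, Fin (n i) → Fin (n i) → MvPolynomial (Option (Fin r)) ℂ,
      (∀ i a b, (P i a b).totalDegree ≤ e) → ∃ B : Set ℂ, B.Finite ∧ ∀ C₀ : Matrix (Fin q) (Fin q) ℂ, ∀ T : ℕ, 1 ≤ T →
        ({α : Fin k → ℂ | (∀ i, Sl.SInt m T (α i) ∧ α i ∉ B) ∧ ¬ ∀ ℓ : Fin k → ℂ, (∀ i, Complex.exp (ℓ i) = α i) →
          GoodZ D C₀ (fun i => Gs h (P i)) fun i => zM h (P i) (α i) (ℓ i)}.ncard : ℝ) ≤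
          C * (T : ℝ) ^ (-c) * ({α : ℂ | Sl.SInt m T α}.ncard : ℝ) ^ k := by
  classical
  obtain ⟨d, hd1, hd⟩ := stabZ (q + ∑ i, n i) D
  obtain ⟨c, hc0, C, hC0, hmain⟩ := cnt_alg (ν := fun i => Fin (n i) × Fin (n i)) hG hc m hm d e ((1 + q * q + 1) ^ (d + 1))
  refine ⟨c, hc0, C, hC0, fun P hP => ?_⟩
  obtain ⟨B, hBf, hB⟩ := hmain (fun i v => P i v.1 v.2) fun i v => hP i v.1 v.2
  refine ⟨B, hBf, fun C₀ T hT => ?_⟩
  obtain ⟨hbf, hb1⟩ := bot_fin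
  obtain ⟨W, hW1, hW2, hKW, hW3⟩ := exists_W' (⊥ : Subfield ℂ) (fun b : Fin q × Fin q => C₀ b.1 b.2)
  obtain ⟨hp1, hp2⟩ := finrank_pow_le W (d + 1)
  have hWD : Module.finrank ℚ W ≤ 1 + q * q + 1 := by
    refine hW2.trans ?_
    rw [Fintype.card_prod, Fintype.card_fin]
    omega
  have h1W : (1 : ℂ) ∈ W := hKW 1 (⊥ : Subfield ℂ).one_mem
  refine le_trans ?_ (hB (W ^ (d + 1)) hp1 (hp2.trans (Nat.pow_le_pow_left hWD _)) T hT)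
  refine Nat.cast_le.2 (Set.ncard_le_ncard ?_ ?_)
  swap
  · refine (Set.Finite.pi (fun _ : Fin k => Sl.sint_fin m T)).subset ?_
    intro α hα i _
    exact (hα.1 i).1
  rintro α ⟨hα1, hα2⟩
  refine ⟨hα1, fun hgd => hα2 fun ℓ hℓ => ?_⟩
  have hcardm : Fintype.card (IG (Fin q) n) ≤ q + ∑ i, n i := by
    rw [card_IG, Fintype.card_fin]
  refine hd (Fin q) k n hcardm _ _ C₀ fun g hg => ?_
  refine Rl_of hKW (PhiG_DC h1W fun a b => hW3 (a, b))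
    (y := fun v : Σ i, Fin (n i) × Fin (n i) => zM h (P v.1) (α v.1) (ℓ v.1) v.2.1 v.2.2)
    (y' := fun v : Σ i, Fin (n i) × Fin (n i) =>
      ((g v.1 : Matrix (Fin (n v.1)) (Fin (n v.1)) ℂ) * zM h (P v.1) (α v.1) (ℓ v.1)) v.2.1 v.2.2)
    (fun F h2 h3 h4 => ?_) (fun b => PhiG_eval C₀ _ b) fun b => ?_
  · have h5 := hgd ℓ hℓ F h2 h3 (by
      rw [MvPolynomial.aeval_eq_eval] at h4
      exact h4) (fun i => tl (P i) (g i)) fun i => satA_of (hg i).1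
    rw [MvPolynomial.aeval_eq_eval]
    refine Eq.trans ?_ h5
    congr 2
    funext v
    exact (zM_mul h (P v.1) (g v.1) _ _ v.2).symm
  · rw [EG_mul, Matrix.one_mul]
    exact PhiG_eval C₀ _ b

end

end Q207.AF
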